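import Pool.Agent.H48.M5.Defs

/-!
# Lagrange interpolation at separated nodes of the unit interval
-/

set_option autoImplicit false

namespace Pool.M5.L31

open Finset Real Polynomial
open Pool.Agent.H49.Ent Pool.Agent.H32.Dense Pool.STK Pool.KAF Pool.M5

section lag

variable {n : ℕ}

theorem lag_add (θ f g : Fin (n + 1) → ℝ) (a : ℕ) :
    lag θ (fun j => f j + g j) a = lag θ f a + lag θ g a := by
  unfold lag
  rw [show (fun j => f j + g j) = f + g from rfl, map_add, coeff_add]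

theorem lag_sub (θ f g : Fin (n + 1) → ℝ) (a : ℕ) :
    lag θ (fun j => f j - g j) a = lag θ f a - lag θ g a := by
  unfold lag
  rw [show (fun j => f j - g j) = f - g from rfl, map_sub, coeff_sub]

theorem lag_smul (θ f : Fin (n + 1) → ℝ) (c : ℝ) (a : ℕ) :
    lag θ (fun j => c * f j) a = c * lag θ f a := by
  unfold lag
  rw [show (fun j => c * f j) = c • f from rfl, map_smul, coeff_smul, smul_eq_mul]

theorem lag_sum {I : Type} (s : Finset I) (θ : Fin (n + 1) → ℝ) (f : I → Fin (n + 1) → ℝ)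
    (a : ℕ) : lag θ (fun j => ∑ i ∈ s, f i j) a = ∑ i ∈ s, lag θ (f i) a := by
  unfold lag
  rw [show (fun j => ∑ i ∈ s, f i j) = ∑ i ∈ s, f i from (by ext j; rw [Finset.sum_apply]),
    map_sum, finsetSum_coeff]

/-- The interpolation is exact for polynomials of degree at most `n`. -/
theorem lag_pol {θ : Fin (n + 1) → ℝ} (hθ : Function.Injective θ) (A : Fin (n + 1) → ℝ)
    (a : Fin (n + 1)) : lag θ (fun j => ∑ a, A a * θ j ^ (a : ℕ)) a = A a := by
  classical
  have h1 : (∑ a : Fin (n + 1), C (A a) * Polynomial.X ^ (a : ℕ) : ℝ[X]) =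
      Lagrange.interpolate univ θ (fun j => ∑ a, A a * θ j ^ (a : ℕ)) := by
    refine Lagrange.eq_interpolate_of_eval_eq _ hθ.injOn ?_ ?_
    · rw [Finset.card_univ, Fintype.card_fin]
      exact degree_sum_fin_lt A
    · intro j _
      rw [eval_finsetSum]
      refine Finset.sum_congr rfl fun a _ => ?_
      simp
  unfold lag
  rw [← h1, finsetSum_coeff]
  rw [Finset.sum_eq_single a]
  · simp
  · intro b _ hb
    rw [coeff_C_mul_X_pow, if_neg]
    intro h
    exact hb (Fin.ext h.symm)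
  · intro h
    exact absurd (Finset.mem_univ _) h

/-- The same with the constant term split off. -/
theorem lag_pol' {θ : Fin (n + 1) → ℝ} (hθ : Function.Injective θ) (c : ℝ) (A : Fin n → ℝ)
    (a : Fin n) :
    lag θ (fun j => c + ∑ a, A a * θ j ^ (a.val + 1)) (a.val + 1) = A a := by
  have h := lag_pol hθ (Fin.cons c A) a.succ
  rw [Fin.cons_succ, Fin.val_succ] at h
  rw [← h]
  congr 1
  ext j
  rw [Fin.sum_univ_succ]
  simp

theorem lag_const {θ : Fin (n + 1) → ℝ} (hθ : Function.Injective θ) (c : ℝ) (a : Fin n) :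
    lag θ (fun _ => c) (a.val + 1) = 0 := by
  have h := lag_pol' hθ c (fun _ => 0) a
  simpa using h

theorem coeff_div_mul (p : ℝ[X]) {M x y : ℝ} {k₀ : ℕ} (hM : ∀ a, |p.coeff a| ≤ M)
    (hxy : (2 : ℝ) ^ (-(k₀ : ℤ)) ≤ |x - y|) (hy : |y| ≤ 1) (a : ℕ) :
    |(Lagrange.basisDivisor x y * p).coeff a| ≤ 2 ^ (k₀ + 1) * M := by
  have hM0 : 0 ≤ M := (abs_nonneg _).trans (hM 0)
  have h1 : |(x - y)⁻¹| ≤ 2 ^ k₀ := by
    rw [abs_inv]
    have : ((2 : ℝ) ^ (-(k₀ : ℤ)))⁻¹ = 2 ^ k₀ := by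
      rw [zpow_neg, inv_inv, zpow_natCast]
    rw [← this]
    exact inv_anti₀ (by positivity) hxy
  have h2 : (Lagrange.basisDivisor x y * p).coeff a =
      (x - y)⁻¹ * ((Polynomial.X * p).coeff a - y * p.coeff a) := by
    unfold Lagrange.basisDivisor
    rw [mul_assoc, coeff_C_mul, sub_mul, coeff_sub, coeff_C_mul]
  rw [h2, abs_mul]
  have h3 : |(Polynomial.X * p).coeff a - y * p.coeff a| ≤ 2 * M := by
    have h4 : |(Polynomial.X * p).coeff a| ≤ M := by
      rcases a with _ | a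
      · simpa using hM0
      · rw [coeff_X_mul]
        exact hM a
    have h5 : |y * p.coeff a| ≤ M := by
      rw [abs_mul]
      calc |y| * |p.coeff a| ≤ 1 * M := mul_le_mul hy (hM a) (abs_nonneg _) zero_le_one
        _ = M := one_mul _
    calc |(Polynomial.X * p).coeff a - y * p.coeff a| ≤ |(Polynomial.X * p).coeff a| + |y * p.coeff a| := abs_sub _ _
      _ ≤ 2 * M := by linarith
  calc |(x - y)⁻¹| * |(Polynomial.X * p).coeff a - y * p.coeff a| ≤ 2 ^ k₀ * (2 * M) :=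
        mul_le_mul h1 h3 (abs_nonneg _) (by positivity)
    _ = 2 ^ (k₀ + 1) * M := by ring

theorem coeff_basis {θ : Fin (n + 1) → ℝ} {k₀ : ℕ} (h0 : ∀ j, |θ j| ≤ 1)
    (hs : ∀ j j', j ≠ j' → (2 : ℝ) ^ (-(k₀ : ℤ)) ≤ |θ j - θ j'|) (j : Fin (n + 1)) (a : ℕ) :
    |(Lagrange.basis univ θ j).coeff a| ≤ 2 ^ (n + k₀ * n) := by
  classical
  have key : ∀ S : Finset (Fin (n + 1)), j ∉ S → ∀ a,
      |(∏ m ∈ S, Lagrange.basisDivisor (θ j) (θ m)).coeff a| ≤ (2 ^ (k₀ + 1)) ^ S.card := by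
    intro S
    induction S using Finset.induction_on with
    | empty =>
      intro _ a
      rw [Finset.prod_empty, Finset.card_empty, pow_zero, coeff_one]
      split_ifs <;> simp
    | insert m S hm ih =>
      intro hj a
      rw [Finset.prod_insert hm, Finset.card_insert_of_notMem hm, pow_succ, mul_comm (_ ^ _)]
      have hjm : j ≠ m := fun h => hj (h ▸ Finset.mem_insert_self _ _)
      exact coeff_div_mul _ (ih fun h => hj (Finset.mem_insert_of_mem h)) (hs j m hjm) (h0 m) a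
  have h := key (univ.erase j) (Finset.notMem_erase _ _) a
  rw [Finset.card_erase_of_mem (Finset.mem_univ _), Finset.card_univ, Fintype.card_fin,
    Nat.add_sub_cancel, ← pow_mul] at h
  unfold Lagrange.basis
  refine h.trans (le_of_eq ?_)
  congr 1
  ring

/-- Bound of the coefficients of the interpolation. -/
theorem lag_le {θ f : Fin (n + 1) → ℝ} {k₀ : ℕ} {M : ℝ} (h0 : ∀ j, |θ j| ≤ 1)
    (hs : ∀ j j', j ≠ j' → (2 : ℝ) ^ (-(k₀ : ℤ)) ≤ |θ j - θ j'|) (hf : ∀ j, |f j| ≤ M) (a : ℕ) :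
    |lag θ f a| ≤ (n + 1) * 2 ^ (n + k₀ * n) * M := by
  classical
  unfold lag
  rw [Lagrange.interpolate_apply, finsetSum_coeff]
  calc |∑ j, (C (f j) * Lagrange.basis univ θ j).coeff a| ≤
      ∑ j, |(C (f j) * Lagrange.basis univ θ j).coeff a| := Finset.abs_sum_le_sum_abs _ _
    _ ≤ ∑ _j : Fin (n + 1), M * 2 ^ (n + k₀ * n) := by
        refine Finset.sum_le_sum fun j _ => ?_
        rw [coeff_C_mul, abs_mul]
        exact mul_le_mul (hf j) (coeff_basis h0 hs j a) (abs_nonneg _)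
          ((abs_nonneg _).trans (hf j))
    _ = (n + 1) * 2 ^ (n + k₀ * n) * M := by
        rw [Finset.sum_const, Finset.card_univ, Fintype.card_fin, nsmul_eq_mul]
        push_cast
        ring

theorem inj_of_sep {θ : Fin (n + 1) → ℝ} {k₀ : ℕ}
    (hs : ∀ j j', j ≠ j' → (2 : ℝ) ^ (-(k₀ : ℤ)) ≤ |θ j - θ j'|) : Function.Injective θ := by
  intro j j' h
  by_contra hne
  have h1 := hs j j' hne
  rw [h, sub_self, abs_zero] at h1
  have : (0 : ℝ) < 2 ^ (-(k₀ : ℤ)) := by positivity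
  linarith

/-- Functions which are near to a polynomial at the nodes. -/
theorem lag_near {θ f : Fin (n + 1) → ℝ} {k₀ : ℕ} {ρ : ℝ} (h0 : ∀ j, |θ j| ≤ 1)
    (hs : ∀ j j', j ≠ j' → (2 : ℝ) ^ (-(k₀ : ℤ)) ≤ |θ j - θ j'|) (c : ℝ) (A : Fin n → ℝ)
    (hf : ∀ j, |f j - c - ∑ a, A a * θ j ^ (a.val + 1)| ≤ ρ) (a : Fin n) :
    |lag θ f (a.val + 1) - A a| ≤ (n + 1) * 2 ^ (n + k₀ * n) * ρ := by
  have h1 := lag_le h0 hs hf (a.val + 1)
  have h2 := lag_pol' (inj_of_sep hs) c A a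
  have h3 : lag θ (fun j => f j - c - ∑ a, A a * θ j ^ (a.val + 1)) (a.val + 1) =
      lag θ f (a.val + 1) - lag θ (fun j => c + ∑ a, A a * θ j ^ (a.val + 1)) (a.val + 1) := by
    rw [← lag_sub]
    congr 1
    ext j
    ring
  rw [h3, h2] at h1
  exact h1

/-- The same relative to the node `0`. -/
theorem lag_near' {θ f : Fin (n + 1) → ℝ} {k₀ : ℕ} {ρ : ℝ} (h0 : ∀ j, |θ j| ≤ 1)
    (hs : ∀ j j', j ≠ j' → (2 : ℝ) ^ (-(k₀ : ℤ)) ≤ |θ j - θ j'|) (A : Fin n → ℝ)
    (hf : ∀ j, |f j - f 0 - ∑ a, (θ j ^ (a.val + 1) - θ 0 ^ (a.val + 1)) * A a| ≤ ρ) (a : Fin n) :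
    |lag θ f (a.val + 1) - A a| ≤ (n + 1) * 2 ^ (n + k₀ * n) * ρ := by
  refine lag_near h0 hs (f 0 - ∑ a, A a * θ 0 ^ (a.val + 1)) A (fun j => ?_) a
  have h : f j - (f 0 - ∑ a, A a * θ 0 ^ (a.val + 1)) - ∑ a, A a * θ j ^ (a.val + 1) =
      f j - f 0 - ∑ a, (θ j ^ (a.val + 1) - θ 0 ^ (a.val + 1)) * A a := by
    rw [show ∑ a : Fin n, (θ j ^ (a.val + 1) - θ 0 ^ (a.val + 1)) * A a =
      ∑ a : Fin n, A a * θ j ^ (a.val + 1) - ∑ a : Fin n, A a * θ 0 ^ (a.val + 1) from by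
        rw [← Finset.sum_sub_distrib]
        exact Finset.sum_congr rfl fun a _ => by ring]
    ring
  rw [h]
  exact hf j

/-- The interpolation reproduces the differences at the nodes. -/
theorem lag_eval {θ : Fin (n + 1) → ℝ} (hθ : Function.Injective θ) (f : Fin (n + 1) → ℝ)
    (j j' : Fin (n + 1)) :
    ∑ a : Fin n, (θ j' ^ (a.val + 1) - θ j ^ (a.val + 1)) * lag θ f (a.val + 1) =
      f j' - f j := by
  classical
  have hd : (Lagrange.interpolate univ θ f).degree < ((n + 1 : ℕ) : WithBot ℕ) := by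
    have := Lagrange.degree_interpolate_lt (s := univ) (v := θ) f hθ.injOn
    rwa [Finset.card_univ, Fintype.card_fin] at this
  have he : ∀ i, f i = ∑ a : Fin (n + 1), lag θ f a * θ i ^ (a : ℕ) := by
    intro i
    have h1 := Lagrange.eval_interpolate_at_node (s := univ) (v := θ) f hθ.injOn
      (Finset.mem_univ i)
    have h2 : (Lagrange.interpolate univ θ f).natDegree < n + 1 := by
      rcases eq_or_ne (Lagrange.interpolate univ θ f) 0 with h | h
      · rw [h]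
        simp
      · rw [degree_eq_natDegree h] at hd
        exact_mod_cast hd
    rw [eval_eq_sum_range' h2] at h1
    rw [← h1, Finset.sum_range]
    rfl
  rw [he j', he j, ← Finset.sum_sub_distrib, Fin.sum_univ_succ]
  simp only [Fin.val_zero, pow_zero, sub_self, zero_add, Fin.val_succ]
  refine Finset.sum_congr rfl fun a _ => ?_
  ring

end lag

/-! ### Consequences for the data of lemma L1 -/

section data

variable {k n : ℕ} {I : Type} [Fintype I] {b : Bas k I} {d : LDat k n I}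

omit [Fintype I] in
theorem dt_le (h : ∀ t, 0 ≤ d.th t ∧ d.th t < 1) (a : Fin n) (w : d.Om × d.Om) :
    |d.dt a w| ≤ (a.val + 1) * |d.ta w| := by
  unfold LDat.dt LDat.ta
  have h1 := h (d.T w.1)
  have h2 := h (d.T w.2)
  set x := d.th (d.T w.2)
  set y := d.th (d.T w.1)
  rw [← (Commute.all x y).mul_geom_sum₂ (a.val + 1), abs_mul, mul_comm]
  refine mul_le_mul_of_nonneg_right ?_ (abs_nonneg _)
  calc |∑ i ∈ range (a.val + 1), x ^ i * y ^ (a.val + 1 - 1 - i)| ≤
      ∑ i ∈ range (a.val + 1), |x ^ i * y ^ (a.val + 1 - 1 - i)| :=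
        Finset.abs_sum_le_sum_abs _ _
    _ ≤ ∑ _i ∈ range (a.val + 1), (1 : ℝ) := by
        refine Finset.sum_le_sum fun i _ => ?_
        rw [abs_mul, abs_pow, abs_pow, abs_of_nonneg h1.1, abs_of_nonneg h2.1]
        exact mul_le_one₀ (pow_le_one₀ h2.1 h2.2.le) (pow_nonneg h1.1 _)
          (pow_le_one₀ h1.1 h1.2.le)
    _ = a.val + 1 := by simp

omit [Fintype I] in
theorem th_abs (h : ∀ t, 0 ≤ d.th t ∧ d.th t < 1) (t : d.Tau) : |d.th t| ≤ 1 := by
  rw [abs_of_nonneg (h t).1]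
  exact (h t).2.le

theorem As_le {A : ℕ} {c : ℝ} {k₀ : ℕ} (hOK : d.OK b A c) {v : Fin (n + 1) → d.Om}
    (hv : d.sep k₀ v) (a : Fin n) (i : I) :
    |d.As v a i| ≤ (n + 1) * 2 ^ (n + k₀ * n) * 2 ^ c :=
  lag_le (fun _ => th_abs hOK.hth _) hv (fun _ => hOK.hco _ i) _

omit [Fintype I] in
/-- The pairs of the reference have no coefficients relative to the reference. -/
theorem rs_self {v : Fin (n + 1) → d.Om} (hv : Function.Injective fun j => d.th (d.T (v j)))
    (j j' : Fin (n + 1)) (i : I) : d.rs (v, (v j, v j')) i = 0 := by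
  have h := lag_eval hv (fun j => d.co (d.T (v j)) i) j j'
  unfold LDat.rs LDat.sg LDat.dt LDat.As
  simp only
  rw [h]
  ring

end data

end Pool.M5.L31
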