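import Pool.Agent.H48.M5.Stmts
import Pool.Agent.H31.M5.Lag
import Pool.Agent.H41.L1.LAM

/-!
# Lemma L1, output for `n + 1` nodes and one more sample of the line

The coefficients of the sample are the values of the interpolation of the coefficients at the
nodes.
-/

set_option autoImplicit false

namespace Pool.M5

open Finset Real
open Pool.Agent.H49.Ent Pool.Agent.H32.Dense Pool.STK Pool.KAF

/-- A reference and one more sample of its line. -/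
noncomputable def LDat.Q1 {k n : ℕ} {I : Type} (d : LDat k n I) :
    (Fin (n + 1) → d.Om) × d.Om → ℝ := glue d.Qr d.P (fun v => d.L (v 0)) d.L

/-- The interpolation at the nodes of a reference, at the time `t`. -/
noncomputable def LDat.itp {k n : ℕ} {I : Type} (d : LDat k n I) (v : Fin (n + 1) → d.Om)
    (i : I) (t : ℝ) : ℝ :=
  (Lagrange.interpolate univ (fun j => d.th (d.T (v j))) (fun j => d.co (d.T (v j)) i)).eval t

/-- **Lemma L1**, output for `n + 1` separated nodes and one more sample. -/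
def L1WStmt : Prop :=
  ∀ (k n K A : ℕ) (b : Bas k (Mon k K)) (c ε : ℝ), (∀ i, b.g i = mono (i : Fin k → ℕ)) →
    (∀ i, b.D i = dmono (i : Fin k → ℕ)) → 0 < c → 0 < ε →
    ∃ (κ₂ κ π₀ ι ε₀ : ℝ) (k₀ j₀ X₀ : ℕ), 0 < κ₂ ∧ 0 < κ ∧ κ ≤ 1 ∧ 0 < π₀ ∧ 0 < ι ∧ 0 < ε₀ ∧
      ∀ d : LDat k n (Mon k K), d.OK b A (ι * d.X) → X₀ ≤ d.X → d.H1 ι j₀ ε₀ →
        (d.toR b).H2 ι → d.H3 ι → (d.toR b).H5 c κ π₀ ∅ →
        Pr d.Q1 {u | ¬ d.sep k₀ u.1 ∨ ∃ i, (2 : ℝ) ^ (-(κ₂ * d.X)) <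
          |d.co (d.T u.2) i - d.itp u.1 i (d.th (d.T u.2))|} ≤ ε

namespace L31

open Polynomial

/-- Bound of the interpolation on the unit interval. -/
theorem interp_le {n : ℕ} {θ f : Fin (n + 1) → ℝ} {k₀ : ℕ} {M t : ℝ}
    (h0 : ∀ j, 0 ≤ θ j ∧ θ j ≤ 1) (ht : 0 ≤ t ∧ t ≤ 1)
    (hs : ∀ j j', j ≠ j' → (2 : ℝ) ^ (-(k₀ : ℤ)) ≤ |θ j - θ j'|) (hf : ∀ j, |f j| ≤ M) :
    |(Lagrange.interpolate univ θ f).eval t| ≤ (n + 1) * 2 ^ (k₀ * n) * M := by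
  classical
  have hb : ∀ j, |(Lagrange.basis univ θ j).eval t| ≤ 2 ^ (k₀ * n) := by
    intro j
    unfold Lagrange.basis
    rw [eval_prod, Finset.abs_prod]
    have h1 : ∀ m ∈ univ.erase j, |(Lagrange.basisDivisor (θ j) (θ m)).eval t| ≤ 2 ^ k₀ := by
      intro m hm
      have hjm : j ≠ m := (Finset.ne_of_mem_erase hm).symm
      unfold Lagrange.basisDivisor
      rw [eval_mul, eval_C, eval_sub, eval_X, eval_C, abs_mul, abs_inv]
      have h2 : |θ j - θ m|⁻¹ ≤ 2 ^ k₀ := by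
        have : ((2 : ℝ) ^ (-(k₀ : ℤ)))⁻¹ = 2 ^ k₀ := by rw [zpow_neg, inv_inv, zpow_natCast]
        rw [← this]
        exact inv_anti₀ (by positivity) (hs j m hjm)
      have h3 : |t - θ m| ≤ 1 := by
        have := h0 m
        rw [abs_le]
        constructor <;> linarith [ht.1, ht.2, this.1, this.2]
      calc |θ j - θ m|⁻¹ * |t - θ m| ≤ 2 ^ k₀ * 1 :=
            mul_le_mul h2 h3 (abs_nonneg _) (by positivity)
        _ = 2 ^ k₀ := mul_one _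
    calc ∏ m ∈ univ.erase j, |(Lagrange.basisDivisor (θ j) (θ m)).eval t| ≤
        ∏ _m ∈ univ.erase j, (2 : ℝ) ^ k₀ := Finset.prod_le_prod (fun _ _ => abs_nonneg _) h1
      _ = 2 ^ (k₀ * n) := by
        rw [Finset.prod_const, Finset.card_erase_of_mem (Finset.mem_univ _), Finset.card_univ,
          Fintype.card_fin, Nat.add_sub_cancel, ← pow_mul]
  rw [Lagrange.interpolate_apply, eval_finsetSum]
  calc |∑ j, (C (f j) * Lagrange.basis univ θ j).eval t| ≤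
      ∑ j, |(C (f j) * Lagrange.basis univ θ j).eval t| := Finset.abs_sum_le_sum_abs _ _
    _ ≤ ∑ _j : Fin (n + 1), M * 2 ^ (k₀ * n) := by
        refine Finset.sum_le_sum fun j _ => ?_
        rw [eval_mul, eval_C, abs_mul]
        exact mul_le_mul (hf j) (hb j) (abs_nonneg _) ((abs_nonneg _).trans (hf j))
    _ = (n + 1) * 2 ^ (k₀ * n) * M := by
        rw [Finset.sum_const, Finset.card_univ, Fintype.card_fin, nsmul_eq_mul]
        push_cast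
        ring

/-- Functions which are near to one polynomial at the nodes and at `t`. -/
theorem interp_near {n : ℕ} {θ f : Fin (n + 1) → ℝ} {k₀ : ℕ} {e t ft : ℝ}
    (h0 : ∀ j, 0 ≤ θ j ∧ θ j ≤ 1) (ht : 0 ≤ t ∧ t ≤ 1)
    (hs : ∀ j j', j ≠ j' → (2 : ℝ) ^ (-(k₀ : ℤ)) ≤ |θ j - θ j'|) (A : Fin n → ℝ)
    (hf : ∀ j, |f j - f 0 - ∑ a, (θ j ^ (a.val + 1) - θ 0 ^ (a.val + 1)) * A a| ≤ e)
    (hft : |ft - f 0 - ∑ a, (t ^ (a.val + 1) - θ 0 ^ (a.val + 1)) * A a| ≤ e) :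
    |ft - (Lagrange.interpolate univ θ f).eval t| ≤ 2 ^ (n + 1 + k₀ * n) * e := by
  classical
  set c₀ : ℝ := f 0 - ∑ a, θ 0 ^ (a.val + 1) * A a with hc₀
  set B : Fin (n + 1) → ℝ := Fin.cons c₀ A with hB
  set q : ℝ[X] := ∑ a : Fin (n + 1), C (B a) * Polynomial.X ^ (a : ℕ) with hq
  have hev : ∀ x : ℝ, q.eval x = f 0 + ∑ a, (x ^ (a.val + 1) - θ 0 ^ (a.val + 1)) * A a := by
    intro x
    rw [hq, eval_finsetSum, Fin.sum_univ_succ]
    have e1 : ∀ a : Fin n, (C (B a.succ) * Polynomial.X ^ (a.succ : ℕ)).eval x =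
        x ^ (a.val + 1) * A a := by
      intro a
      rw [eval_mul, eval_C, eval_pow, eval_X, hB, Fin.cons_succ, Fin.val_succ, mul_comm]
    have e2 : (C (B 0) * Polynomial.X ^ ((0 : Fin (n + 1)) : ℕ)).eval x = c₀ := by
      rw [eval_mul, eval_C, eval_pow, eval_X, hB, Fin.cons_zero, Fin.val_zero, pow_zero, mul_one]
    rw [e2, Finset.sum_congr rfl fun a _ => e1 a, hc₀]
    have e3 : ∑ a : Fin n, (x ^ (a.val + 1) - θ 0 ^ (a.val + 1)) * A a =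
        ∑ a : Fin n, x ^ (a.val + 1) * A a - ∑ a : Fin n, θ 0 ^ (a.val + 1) * A a := by
      rw [← Finset.sum_sub_distrib]
      exact Finset.sum_congr rfl fun a _ => by ring
    rw [e3]
    ring
  have hex : q = Lagrange.interpolate univ θ (fun j => q.eval (θ j)) := by
    refine Lagrange.eq_interpolate_of_eval_eq _ (inj_of_sep hs).injOn ?_ fun j _ => rfl
    rw [Finset.card_univ, Fintype.card_fin]
    exact degree_sum_fin_lt B
  have h1 : Lagrange.interpolate univ θ f - q =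
      Lagrange.interpolate univ θ (fun j => f j - q.eval (θ j)) := by
    conv_lhs => rw [hex]
    rw [← map_sub]
    rfl
  have h2 : |(Lagrange.interpolate univ θ f - q).eval t| ≤ (n + 1) * 2 ^ (k₀ * n) * e := by
    rw [h1]
    refine interp_le h0 ht hs fun j => ?_
    rw [hev]
    have := hf j
    rwa [sub_sub] at this
  rw [eval_sub] at h2
  have h3 : |ft - q.eval t| ≤ e := by
    rw [hev]
    rwa [sub_sub] at hft
  have he : 0 ≤ e := (abs_nonneg _).trans h3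
  have h4 : |ft - (Lagrange.interpolate univ θ f).eval t| ≤
      |ft - q.eval t| + |(Lagrange.interpolate univ θ f).eval t - q.eval t| := by
    have : ft - (Lagrange.interpolate univ θ f).eval t =
        (ft - q.eval t) - ((Lagrange.interpolate univ θ f).eval t - q.eval t) := by ring
    rw [this]
    exact abs_sub _ _
  have h5 : 1 + (n + 1) * 2 ^ (k₀ * n) ≤ (2 : ℝ) ^ (n + 1 + k₀ * n) := by
    have a1 : (1 : ℝ) ≤ 2 ^ (k₀ * n) := one_le_pow₀ (by norm_num)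
    have a2 : ((n : ℝ) + 1) ≤ 2 ^ n := by
      exact_mod_cast Nat.succ_le_of_lt Nat.lt_two_pow_self
    have a3 : (1 : ℝ) ≤ 2 ^ n := one_le_pow₀ (by norm_num)
    calc 1 + ((n : ℝ) + 1) * 2 ^ (k₀ * n) ≤ 2 ^ n * 2 ^ (k₀ * n) + 2 ^ n * 2 ^ (k₀ * n) := by
          have b1 : (1 : ℝ) ≤ 2 ^ n * 2 ^ (k₀ * n) := one_le_mul_of_one_le_of_one_le a3 a1
          have b2 : ((n : ℝ) + 1) * 2 ^ (k₀ * n) ≤ 2 ^ n * 2 ^ (k₀ * n) :=
            mul_le_mul_of_nonneg_right a2 (by positivity)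
          linarith
      _ = (2 : ℝ) ^ (n + 1 + k₀ * n) := by ring
  calc |ft - (Lagrange.interpolate univ θ f).eval t| ≤ e + (n + 1) * 2 ^ (k₀ * n) * e := by
        linarith
    _ = (1 + (n + 1) * 2 ^ (k₀ * n)) * e := by ring
    _ ≤ 2 ^ (n + 1 + k₀ * n) * e := mul_le_mul_of_nonneg_right h5 he

end L31

namespace W31

/-- Union bound. -/
theorem Pr_un {Ω ι : Type} [Fintype Ω] {p : Ω → ℝ} (hp : ∀ ω, 0 ≤ p ω) (A B C : Set Ω)
    (J : Finset ι) (F : ι → Set Ω)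
    (h : ∀ ω, ω ∈ A → ω ∈ B ∨ ω ∈ C ∨ ∃ j ∈ J, ω ∈ F j) :
    Pr p A ≤ Pr p B + (Pr p C + ∑ j ∈ J, Pr p (F j)) := by
  classical
  have hPr : ∀ E : Set Ω, Pr p E = ∑ ω, p ω * (if ω ∈ E then 1 else 0) := fun E => by
    rw [Pool.KAF.Pr_eq]
    refine Finset.sum_congr rfl fun w _ => ?_
    by_cases h : w ∈ E <;> simp [h]
  simp only [hPr]
  rw [Finset.sum_comm, ← Finset.sum_add_distrib, ← Finset.sum_add_distrib]
  refine Finset.sum_le_sum fun ω _ => ?_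
  rw [← Finset.mul_sum, ← mul_add, ← mul_add]
  refine mul_le_mul_of_nonneg_left ?_ (hp ω)
  have hnn : ∀ E : Set Ω, (0 : ℝ) ≤ (if ω ∈ E then 1 else 0) := fun E => by split_ifs <;> norm_num
  have hsum : (0 : ℝ) ≤ ∑ j ∈ J, (if ω ∈ F j then 1 else 0) := Finset.sum_nonneg fun j _ => hnn _
  by_cases hA : ω ∈ A
  · rw [if_pos hA]
    rcases h ω hA with h1 | h1 | ⟨j, hj, h1⟩
    · rw [if_pos h1]
      linarith [hnn C]
    · rw [if_pos h1]
      linarith [hnn B]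
    · have h5 := Finset.single_le_sum (s := J) (f := fun j => if ω ∈ F j then (1 : ℝ) else 0)
        (fun j _ => hnn _) hj
      simp only [if_pos h1] at h5
      linarith [hnn B, hnn C]
  · rw [if_neg hA]
    linarith [hnn B, hnn C]

section dat

variable {k n : ℕ} {I : Type} (b : Bas k I) (d : LDat k n I)

open Pool.L1

theorem H1_mono {ι ε₀ : ℝ} {j₀ j₁ : ℕ} (hP : IsLaw d.P) (hj : j₀ ≤ j₁) (h : d.H1 ι j₁ ε₀) :
    d.H1 ι j₀ ε₀ := by
  refine ⟨h.1, h.2.1, ?_⟩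
  have h1 := CH_le_add hP.nonneg (d.Ti j₁) (d.Ti j₀) d.L
  have h2 : CH d.P (d.Ti j₁) (fun ω => (d.Ti j₀ ω, d.L ω)) ≤ ((j₁ - j₀ : ℕ) : ℝ) * Real.log 2 := by
    have h3 := CH_le_card hP.nonneg hP.sum_one (d.Ti j₁) (fun ω => (d.Ti j₀ ω, d.L ω))
      (fun z => Finset.Ico (z.1 * 2 ^ (j₁ - j₀)) ((z.1 + 1) * 2 ^ (j₁ - j₀))) (by
        intro ω _
        unfold LDat.Ti
        set x := d.th (d.T ω)
        have e1 : (2 : ℝ) ^ j₁ * x = 2 ^ (j₁ - j₀) * ((2 : ℝ) ^ j₀ * x) := by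
          rw [← mul_assoc, ← pow_add, Nat.sub_add_cancel hj]
        rw [e1]
        set y := (2 : ℝ) ^ j₀ * x
        have e2 := Int.floor_le y
        have e3 := Int.lt_floor_add_one y
        have e4 : (0 : ℝ) < 2 ^ (j₁ - j₀) := by positivity
        rw [Finset.mem_Ico]
        constructor
        · rw [Int.le_floor]
          push_cast
          rw [mul_comm]
          exact mul_le_mul_of_nonneg_left e2 e4.le
        · rw [Int.floor_lt]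
          push_cast
          rw [mul_comm]
          exact mul_lt_mul_of_pos_right e3 e4)
    refine h3.trans (le_of_eq ?_)
    have e5 : ∀ ω, Real.log (((Finset.Ico (d.Ti j₀ ω * 2 ^ (j₁ - j₀))
        ((d.Ti j₀ ω + 1) * 2 ^ (j₁ - j₀))).card : ℕ) : ℝ) = ((j₁ - j₀ : ℕ) : ℝ) * Real.log 2 := by
      intro ω
      rw [Int.card_Ico]
      have e6 : (d.Ti j₀ ω + 1) * 2 ^ (j₁ - j₀) - d.Ti j₀ ω * 2 ^ (j₁ - j₀) =
          ((2 ^ (j₁ - j₀) : ℕ) : ℤ) := by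
        push_cast
        ring
      rw [e6, Int.toNat_natCast]
      push_cast
      rw [Real.log_pow]
    simp only [e5]
    exact Ex_const hP.sum_one _
  have h4 : ((j₁ - j₀ : ℕ) : ℝ) = j₁ - j₀ := by rw [Nat.cast_sub hj]
  rw [h4] at h2
  have h5 := h.2.2
  nlinarith [h1, h2, h5]

theorem Q1_hZ (hp : IsLaw d.P) (z : d.Lam) :
    law d.Qr (fun v => d.L (v 0)) z = law d.P d.L z := Qr_law d hp.nonneg z

theorem Q1_nonneg (hp : IsLaw d.P) (u) : 0 ≤ d.Q1 u :=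
  glue_nonneg (Qr_isLaw d hp).nonneg hp.nonneg u

theorem Q1_fst (hp : IsLaw d.P) : Marg d.Q1 d.Qr (fun u => u.1) :=
  marg_fst (Qr_isLaw d hp).nonneg (Q1_hZ d hp)

/-- Two references and one more sample. -/
noncomputable def Q7 : (Fin (n + 1) → d.Om) × ((Fin (n + 1) → d.Om) × d.Om) → ℝ :=
  glue d.Qr d.Q1 (fun v => d.L (v 0)) (fun u => d.L (u.1 0))

theorem Q7_hZ (hp : IsLaw d.P) (z : d.Lam) :
    law d.Qr (fun v => d.L (v 0)) z = law d.Q1 (fun u => d.L (u.1 0)) z :=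
  ((Q1_fst d hp).law (fun v => d.L (v 0)) z).symm

theorem Q7_nonneg (hp : IsLaw d.P) (u) : 0 ≤ Q7 d u :=
  glue_nonneg (Qr_isLaw d hp).nonneg (Q1_nonneg d hp) u

theorem Q7_snd (hp : IsLaw d.P) : Marg (Q7 d) d.Q1 (fun w => w.2) :=
  marg_snd (Q1_nonneg d hp) (Q7_hZ d hp)

/-- A reference and two samples of the second reference. -/
theorem Q7_two {A : ℕ} {c : ℝ} [Fintype I] (hd : d.OK b A c) {j : Fin (n + 1)} (hj : 0 ≠ j) :
    Marg (Q7 d) (d.Q4 0) (fun w => (w.1, (w.2.1 0, w.2.1 j))) := by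
  have h1 : Marg d.Q1 (d.Qp 0) (fun u => (u.1 0, u.1 j)) := by
    have h2 : Marg d.Qr (d.Qp 0) (fun v => (v 0, v j)) := by
      rw [Qr_eq, Qp0_eq b d hd]
      exact Pool.SLO.tup_two hd.law.nonneg d.L 0 j hj
    exact (Q1_fst d hd.law).comp h2
  exact Marg.glue (Z₁ := fun v : Fin (n + 1) → d.Om => d.L (v 0)) (Z₂ := fun w => d.L w.1)
    (Marg.id d.Qr) h1

/-- A reference and a pair: a sample of the second reference and the further sample. -/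
theorem Q7_one {A : ℕ} {c : ℝ} [Fintype I] (hd : d.OK b A c) :
    Marg (Q7 d) (d.Q4 0) (fun w => (w.1, (w.2.1 0, w.2.2))) := by
  have h1 : Marg d.Q1 (d.Qp 0) (fun u => (u.1 0, u.2)) := by
    rw [Qp0_eq b d hd]
    have h2 : Marg d.Qr d.P (fun v => v 0) := by
      rw [Qr_eq]
      exact Pool.SLO.tup_marg hd.law.nonneg d.L n 0
    exact Marg.glue (Z₁ := d.L) (Z₂ := d.L) h2 (Marg.id d.P)
  exact Marg.glue (Z₁ := fun v : Fin (n + 1) → d.Om => d.L (v 0)) (Z₂ := fun w => d.L w.1)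
    (Marg.id d.Qr) h1

/-- The deterministic step. -/
theorem itp_near {A : ℕ} {c e : ℝ} {k₀ : ℕ} [Fintype I] (hd : d.OK b A c)
    (v v' : Fin (n + 1) → d.Om) (ω : d.Om) (i : I) (hs : d.sep k₀ v') (he : 0 ≤ e)
    (h1 : ∀ j, 0 ≠ j → |d.rs (v, (v' 0, v' j)) i| ≤ e) (h2 : |d.rs (v, (v' 0, ω)) i| ≤ e) :
    |d.co (d.T ω) i - d.itp v' i (d.th (d.T ω))| ≤ 2 ^ (n + 1 + k₀ * n) * e := by
  have hth : ∀ t, 0 ≤ d.th t ∧ d.th t ≤ 1 := fun t => ⟨(hd.hth t).1, (hd.hth t).2.le⟩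
  refine L31.interp_near (fun j => hth _) (hth _) hs (fun a => d.As v a i) (fun j => ?_) ?_
  · by_cases hj : 0 = j
    · subst hj
      simpa using he
    · have := h1 j hj
      unfold LDat.rs LDat.sg LDat.dt at this
      exact this
  · unfold LDat.rs LDat.sg LDat.dt at h2
    exact h2

theorem l1w_ev {A : ℕ} {c e ε ε' : ℝ} {k₀ : ℕ} [Fintype I] (hd : d.OK b A c) (he : 0 ≤ e)
    (hT : TC d k₀ ε') (h : Pr (d.Q4 0) {u | ∃ i, e < |d.rs u i|} ≤ ε) :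
    Pr d.Q1 {u | ¬ d.sep k₀ u.1 ∨ ∃ i, 2 ^ (n + 1 + k₀ * n) * e <
      |d.co (d.T u.2) i - d.itp u.1 i (d.th (d.T u.2))|} ≤
      (n + 1) ^ 2 * ε' + (n + 2) * ε := by
  classical
  have hp := hd.law
  have hQ := Q7_nonneg d hp
  set Bd : Set ((Fin (n + 1) → d.Om) × d.Om) := {u | ¬ d.sep k₀ u.1 ∨
    ∃ i, 2 ^ (n + 1 + k₀ * n) * e < |d.co (d.T u.2) i - d.itp u.1 i (d.th (d.T u.2))|} with hBd
  set E4 : Set ((Fin (n + 1) → d.Om) × (d.Om × d.Om)) := {u | ∃ i, e < |d.rs u i|} with hE4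
  have h0 : Pr (Q7 d) {w | w.2 ∈ Bd} = Pr d.Q1 Bd := Pr_marg (Q7_snd d hp) Bd
  rw [← h0]
  have hE0 : 0 ≤ Pr (d.Q4 0) E4 := by
    unfold Pr
    exact law_nonneg (Q4_nonneg d hp 0) _ _
  have hsep : Pr (Q7 d) {w | ¬ d.sep k₀ w.2.1} ≤ (n + 1) ^ 2 * ε' := by
    have h1 := Pr_marg ((Q7_snd d hp).comp (Q1_fst d hp)) {v | ¬ d.sep k₀ v}
    calc Pr (Q7 d) {w | ¬ d.sep k₀ w.2.1} = Pr d.Qr {v | ¬ d.sep k₀ v} := h1
      _ ≤ _ := sep_prob b d hd hT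
  have hone : Pr (Q7 d) {w | (w.1, (w.2.1 0, w.2.2)) ∈ E4} ≤ ε := by
    rw [Pr_marg (Q7_one b d hd) E4]
    exact h
  have htwo : ∀ j : Fin (n + 1), 0 ≠ j →
      Pr (Q7 d) {w | (w.1, (w.2.1 0, w.2.1 j)) ∈ E4} ≤ ε := by
    intro j hj
    rw [Pr_marg (Q7_two b d hd hj) E4]
    exact h
  -- union bound
  have hε : 0 ≤ ε := hE0.trans h
  have hun : Pr (Q7 d) {w | w.2 ∈ Bd} ≤ Pr (Q7 d) {w | ¬ d.sep k₀ w.2.1} +
      (Pr (Q7 d) {w | (w.1, (w.2.1 0, w.2.2)) ∈ E4} +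
        ∑ j ∈ univ.filter (fun j : Fin (n + 1) => 0 ≠ j),
          Pr (Q7 d) {w | (w.1, (w.2.1 0, w.2.1 j)) ∈ E4}) := by
    refine Pr_un hQ _ _ _ _ (fun j => {w | (w.1, (w.2.1 0, w.2.1 j)) ∈ E4}) fun w h1 => ?_
    by_contra hc
    push Not at hc
    obtain ⟨hc1, hc2, hc3⟩ := hc
    have hs : d.sep k₀ w.2.1 := by
      by_contra hh
      exact hc1 hh
    rcases h1 with h1 | ⟨i, hi⟩
    · exact h1 hs
    · refine absurd hi (not_lt.mpr ?_)
      refine itp_near b d hd w.1 w.2.1 w.2.2 i hs he (fun j hj => ?_) ?_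
      · by_contra hcc
        exact hc3 j (Finset.mem_filter.mpr ⟨Finset.mem_univ j, hj⟩) ⟨i, not_le.mp hcc⟩
      · by_contra hcc
        exact hc2 ⟨i, not_le.mp hcc⟩
  have hcard : ∑ j ∈ univ.filter (fun j : Fin (n + 1) => 0 ≠ j),
      Pr (Q7 d) {w | (w.1, (w.2.1 0, w.2.1 j)) ∈ E4} ≤ (n + 1) * ε := by
    calc ∑ j ∈ univ.filter (fun j : Fin (n + 1) => 0 ≠ j),
        Pr (Q7 d) {w | (w.1, (w.2.1 0, w.2.1 j)) ∈ E4} ≤
        ∑ _j ∈ univ.filter (fun j : Fin (n + 1) => 0 ≠ j), ε :=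
          Finset.sum_le_sum fun j hj => htwo j (Finset.mem_filter.mp hj).2
      _ ≤ ∑ _j : Fin (n + 1), ε :=
          Finset.sum_le_sum_of_subset_of_nonneg (Finset.filter_subset _ _) fun _ _ _ => hε
      _ = (n + 1) * ε := by
          rw [Finset.sum_const, Finset.card_univ, Fintype.card_fin, nsmul_eq_mul]
          push_cast
          ring
  linarith

end dat

end W31

open W31 in
/-- **L1W** from L1. -/
theorem l1w_thm (hL : L1Stmt) (hT : TICStmt) : L1WStmt := by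
  intro k n K A b c ε hg hD hc hε
  obtain ⟨k₀, ε₁, hε₁, hTC⟩ := hT (ε / (2 * (n + 1) ^ 2)) (by positivity)
  obtain ⟨κ₂, κ, π₀, ι, ε₀, j₀, X₀, h1, h2, h3, h4, h5, h6, hmain⟩ :=
    hL k n K A b c (ε / (2 * (n + 2))) hg hD hc (by positivity)
  set Lg : ℕ := n + 1 + k₀ * n with hLg
  refine ⟨κ₂ / 2, κ, π₀, ι, min ε₀ ε₁, k₀, max j₀ k₀, max X₀ ⌈2 * Lg / κ₂⌉₊, by positivity, h2, h3,
    h4, h5, lt_min h6 hε₁, ?_⟩
  intro d hd hX hH1 hH2 hH3 hH5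
  have hX0 : X₀ ≤ d.X := (le_max_left _ _).trans hX
  have hX1 : (2 * Lg / κ₂ : ℝ) ≤ d.X :=
    (Nat.le_ceil _).trans (by exact_mod_cast (le_max_right _ _).trans hX)
  have hH1a : d.H1 ι j₀ ε₀ := by
    refine H1_mono d hd.law (le_max_left j₀ k₀) ⟨hH1.1, hH1.2.1, ?_⟩
    have := hH1.2.2
    have h7 := min_le_left ε₀ ε₁
    linarith
  have hH1b : d.H1 ι (max j₀ k₀) ε₁ := by
    refine ⟨hH1.1, hH1.2.1, ?_⟩
    have := hH1.2.2
    have h7 := min_le_right ε₀ ε₁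
    linarith
  have hTC' := hTC k n (Mon k K) d b A (max j₀ k₀) ι _ hd (le_max_right _ _) hH1b
  have hr := hmain d hd hX0 hH1a hH2 hH3 hH5
  have hev := l1w_ev b d hd (e := (2 : ℝ) ^ (-(κ₂ * d.X))) (by positivity) hTC' hr
  have hsz : (2 : ℝ) ^ Lg * (2 : ℝ) ^ (-(κ₂ * d.X)) ≤ (2 : ℝ) ^ (-(κ₂ / 2 * d.X)) := by
    rw [← Real.rpow_natCast, ← Real.rpow_add (by norm_num)]
    refine Real.rpow_le_rpow_of_exponent_le (by norm_num) ?_
    rw [div_le_iff₀ h1] at hX1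
    linarith
  have hbound : ((n : ℝ) + 1) ^ 2 * (ε / (2 * (n + 1) ^ 2)) + (n + 2) * (ε / (2 * (n + 2))) =
      ε := by
    field_simp
    ring
  rw [hbound] at hev
  refine le_trans ?_ hev
  have h8 := Pr_un (Q1_nonneg d hd.law)
    {u | ¬ d.sep k₀ u.1 ∨ ∃ i, (2 : ℝ) ^ (-(κ₂ / 2 * d.X)) <
      |d.co (d.T u.2) i - d.itp u.1 i (d.th (d.T u.2))|}
    {u | ¬ d.sep k₀ u.1 ∨ ∃ i, 2 ^ (n + 1 + k₀ * n) * (2 : ℝ) ^ (-(κ₂ * d.X)) <
      |d.co (d.T u.2) i - d.itp u.1 i (d.th (d.T u.2))|} ∅ (∅ : Finset ℕ) (fun _ => ∅) (by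
        rintro u (a1 | ⟨i, hi⟩)
        · exact Or.inl (Or.inl a1)
        · exact Or.inl (Or.inr ⟨i, lt_of_le_of_lt hsz hi⟩))
  have h9 : Pr d.Q1 ∅ = 0 := by
    rw [Pool.KAF.Pr_eq]
    simp
  rw [h9, Finset.sum_empty, add_zero, add_zero] at h8
  exact h8

end Pool.M5
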