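import Pool.Agent.H54.KVA.Defs2

/-!
# Slope law (M5), input (H2): the heights do not depend on the data of the lines

`b j` is the context at the window number `j` (the windows grow with `j`), `t` the time, `u j` the
height (one variable, up to small errors, in different guises), `y j` the digits of the position,
`v j` the velocity data of the line: a function of `y j` and of the contexts `b j`, `b (j + 1)`.
The sum over `j` of the dependences of `u j` on `(y j, v j)` given `b j`, `t` is at most the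
entropy of one height plus the errors plus the dependences of `u j` on the position `y j` given
`b j`, `b (j + 1)`, `t`. The latter are small if the position is full.
-/

set_option autoImplicit false

namespace Pool.M5

open Finset Real
open Pool.Agent.H49.Ent Pool.Agent.H32.Dense Pool.STK Pool.KVA

section basic

variable {Ω S T U V : Type} [Fintype Ω]

theorem MI_eq {p : Ω → ℝ} (hp : ∀ ω, 0 ≤ p ω) (X : Ω → S) (Y : Ω → T) (b : Ω → U) :
    MI p X Y b = CH p X b - CH p X (fun ω => (Y ω, b ω)) := by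
  unfold MI
  rw [CH_chain hp]
  ring

theorem MI_nonneg {p : Ω → ℝ} (hp : ∀ ω, 0 ≤ p ω) (X : Ω → S) (Y : Ω → T) (b : Ω → U) :
    0 ≤ MI p X Y b := by
  rw [MI_eq hp]
  have := CH_mono_cond hp (X := X) (W' := fun ω => (Y ω, b ω)) (W := b)
    (fun ω ω' _ _ h => (Prod.ext_iff.mp h).2)
  linarith

/-- more variables in the condition, at the price of their conditional entropy -/
theorem CH_cond_le {p : Ω → ℝ} (hp : ∀ ω, 0 ≤ p ω) (X : Ω → S) (Y : Ω → T) (b : Ω → U) :
    CH p X b ≤ CH p X (fun ω => (Y ω, b ω)) + CH p Y b := by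
  have := CH_le_add hp X Y b
  linarith

end basic

section chain

variable {Ω τ : Type} [Fintype Ω] {β υ : ℕ → Type}

/-- one step of the chain: windows `i` and `j`, the larger window is `j` -/
theorem step {B B' U U' : Type} {p : Ω → ℝ} (hp : ∀ ω, 0 ≤ p ω) (b : Ω → B) (b' : Ω → B')
    (u : Ω → U) (u' : Ω → U') (t : Ω → τ) {e e' : ℝ}
    (h1 : CH p b (fun ω => (b' ω, t ω)) ≤ e)
    (h2 : CH p u' (fun ω => (u ω, (b' ω, t ω))) ≤ e') :
    MI p u b' (fun ω => (b ω, t ω)) ≤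
      CH p u (fun ω => (b ω, t ω)) - CH p u' (fun ω => (b' ω, t ω)) + (e + e') := by
  rw [MI_eq hp]
  have c1 := CH_le_add hp u' u (fun ω => (b' ω, t ω))
  have c2 := CH_le_add hp u b (fun ω => (b' ω, t ω))
  have c3 : CH p u (fun ω => (b ω, (b' ω, t ω))) = CH p u (fun ω => (b' ω, (b ω, t ω))) := by
    refine CH_congr hp ?_ ?_ ?_ ?_ <;> intro ω ω' _ _ h <;> simp only [Prod.mk.injEq] at h ⊢ <;>
      tauto
  linarith

/-- the errors of `s` steps -/
theorem steps {p : Ω → ℝ} (hp : ∀ ω, 0 ≤ p ω) (b : ∀ j, Ω → β j) (u : ∀ j, Ω → υ j) (t : Ω → τ)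
    {e1 e2 : ℝ} {n : ℕ} (hb : ∀ j < n, CH p (b j) (fun ω => (b (j + 1) ω, t ω)) ≤ e1)
    (hu : ∀ j < n, CH p (u (j + 1)) (fun ω => (u j ω, (b (j + 1) ω, t ω))) ≤ e2) (j : ℕ) :
    ∀ s, j + s ≤ n → CH p (b j) (fun ω => (b (j + s) ω, t ω)) ≤ s * e1 ∧
      CH p (u (j + s)) (fun ω => (u j ω, (b (j + s) ω, t ω))) ≤ s * (e1 + e2) := by
  intro s
  induction s with
  | zero =>
    intro _
    have h1 : CH p (b j) (fun ω => (b (j + 0) ω, t ω)) = 0 :=
      CH_eq_zero hp (fun ω ω' _ _ h => (Prod.ext_iff.1 h).1)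
    have h2 : CH p (u (j + 0)) (fun ω => (u j ω, (b (j + 0) ω, t ω))) = 0 :=
      CH_eq_zero hp (fun ω ω' _ _ h => (Prod.ext_iff.1 h).1)
    rw [h1, h2]
    simp
  | succ s ih =>
    intro hs
    obtain ⟨i1, i2⟩ := ih (by omega)
    have hb1 := hb (j + s) (by omega)
    have hu1 := hu (j + s) (by omega)
    have c1 := CH_le_add hp (b j) (b (j + s)) (fun ω => (b (j + s + 1) ω, t ω))
    have c2 : CH p (b j) (fun ω => (b (j + s) ω, (b (j + s + 1) ω, t ω))) ≤
        CH p (b j) (fun ω => (b (j + s) ω, t ω)) :=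
      CH_mono_cond hp fun ω ω' _ _ h => by
        simp only [Prod.mk.injEq] at h ⊢
        tauto
    have c3 := CH_le_add hp (u (j + s + 1)) (b (j + s))
      (fun ω => (u j ω, (b (j + s + 1) ω, t ω)))
    have c4 : CH p (b (j + s)) (fun ω => (u j ω, (b (j + s + 1) ω, t ω))) ≤
        CH p (b (j + s)) (fun ω => (b (j + s + 1) ω, t ω)) :=
      CH_mono_cond hp fun ω ω' _ _ h => (Prod.ext_iff.1 h).2
    have c5 := CH_le_add hp (u (j + s + 1)) (u (j + s))
      (fun ω => (b (j + s) ω, (u j ω, (b (j + s + 1) ω, t ω))))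
    have c6 : CH p (u (j + s)) (fun ω => (b (j + s) ω, (u j ω, (b (j + s + 1) ω, t ω)))) ≤
        CH p (u (j + s)) (fun ω => (u j ω, (b (j + s) ω, t ω))) :=
      CH_mono_cond hp fun ω ω' _ _ h => by
        simp only [Prod.mk.injEq] at h ⊢
        tauto
    have c7 : CH p (u (j + s + 1)) (fun ω => (u (j + s) ω,
        (b (j + s) ω, (u j ω, (b (j + s + 1) ω, t ω))))) ≤
        CH p (u (j + s + 1)) (fun ω => (u (j + s) ω, (b (j + s + 1) ω, t ω))) :=
      CH_mono_cond hp fun ω ω' _ _ h => by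
        simp only [Prod.mk.injEq] at h ⊢
        tauto
    push_cast
    refine ⟨?_, ?_⟩
    · show CH p (b j) (fun ω => (b (j + s + 1) ω, t ω)) ≤ _
      linarith
    · show CH p (u (j + s + 1)) (fun ω => (u j ω, (b (j + s + 1) ω, t ω))) ≤ _
      linarith

/-- the dependence on the data of a window which is larger by `s` steps -/
theorem far {p : Ω → ℝ} (hp : ∀ ω, 0 ≤ p ω) (b : ∀ j, Ω → β j) (u : ∀ j, Ω → υ j) (t : Ω → τ)
    {e1 e2 : ℝ} {n : ℕ} (hb : ∀ j < n, CH p (b j) (fun ω => (b (j + 1) ω, t ω)) ≤ e1)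
    (hu : ∀ j < n, CH p (u (j + 1)) (fun ω => (u j ω, (b (j + 1) ω, t ω))) ≤ e2) {j s : ℕ}
    (hs : j + s ≤ n) :
    MI p (u j) (b (j + s)) (fun ω => (b j ω, t ω)) ≤
      CH p (u j) (fun ω => (b j ω, t ω)) - CH p (u (j + s)) (fun ω => (b (j + s) ω, t ω)) +
        s * (2 * e1 + e2) := by
  obtain ⟨i1, i2⟩ := steps hp b u t hb hu j s hs
  have := step hp (b j) (b (j + s)) (u j) (u (j + s)) t i1 i2
  linarith

/-- the average over the windows of the dependence on the data of the windows which are larger by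
`s` steps -/
theorem sum_far {p : Ω → ℝ} (hp : ∀ ω, 0 ≤ p ω) (b : ∀ j, Ω → β j) (u : ∀ j, Ω → υ j) (t : Ω → τ)
    {e1 e2 L : ℝ} {n : ℕ} (hb : ∀ j < n, CH p (b j) (fun ω => (b (j + 1) ω, t ω)) ≤ e1)
    (hu : ∀ j < n, CH p (u (j + 1)) (fun ω => (u j ω, (b (j + 1) ω, t ω))) ≤ e2)
    (hL : ∀ j, CH p (u j) (fun ω => (b j ω, t ω)) ≤ L) (s : ℕ) :
    ∀ m, m + s ≤ n → ∑ j ∈ range m, MI p (u j) (b (j + s)) (fun ω => (b j ω, t ω)) ≤
      s * L + m * (s * (2 * e1 + e2)) := by
  intro m hm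
  have h1 : ∀ j ∈ range m, MI p (u j) (b (j + s)) (fun ω => (b j ω, t ω)) ≤
      (CH p (u j) (fun ω => (b j ω, t ω)) - CH p (u (j + s)) (fun ω => (b (j + s) ω, t ω))) +
        s * (2 * e1 + e2) := fun j hj => by
    rw [mem_range] at hj
    exact far hp b u t hb hu (by omega)
  refine (Finset.sum_le_sum h1).trans ?_
  rw [Finset.sum_add_distrib, Finset.sum_const, card_range, nsmul_eq_mul]
  have key : ∀ m, ∑ j ∈ range m, (CH p (u j) (fun ω => (b j ω, t ω)) -
      CH p (u (j + s)) (fun ω => (b (j + s) ω, t ω))) =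
      ∑ j ∈ range s, CH p (u j) (fun ω => (b j ω, t ω)) -
        ∑ j ∈ range s, CH p (u (m + j)) (fun ω => (b (m + j) ω, t ω)) := by
    intro m
    induction m with
    | zero =>
      rw [sum_range_zero]
      have : ∑ j ∈ range s, CH p (u (0 + j)) (fun ω => (b (0 + j) ω, t ω)) =
          ∑ j ∈ range s, CH p (u j) (fun ω => (b j ω, t ω)) :=
        Finset.sum_congr rfl fun j _ => by rw [Nat.zero_add]
      rw [this, sub_self]
    | succ m ih =>
      rw [sum_range_succ, ih]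
      have h2 : ∑ j ∈ range s, CH p (u (m + 1 + j)) (fun ω => (b (m + 1 + j) ω, t ω)) +
          CH p (u (m + 0)) (fun ω => (b (m + 0) ω, t ω)) =
          ∑ j ∈ range s, CH p (u (m + j)) (fun ω => (b (m + j) ω, t ω)) +
          CH p (u (m + s)) (fun ω => (b (m + s) ω, t ω)) := by
        rw [← sum_range_succ (fun j => CH p (u (m + j)) (fun ω => (b (m + j) ω, t ω))) s,
          Finset.sum_range_succ' (fun j => CH p (u (m + j)) (fun ω => (b (m + j) ω, t ω))) s]
        congr 1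
        refine Finset.sum_congr rfl fun j _ => ?_
        rw [show m + 1 + j = m + (j + 1) by ring]
      have h3 : CH p (u (m + 0)) (fun ω => (b (m + 0) ω, t ω)) =
        CH p (u m) (fun ω => (b m ω, t ω)) := rfl
      rw [h3] at h2
      linarith
  rw [key m]
  have h2 : ∑ j ∈ range s, CH p (u j) (fun ω => (b j ω, t ω)) ≤ s * L := by
    calc _ ≤ ∑ _j ∈ range s, L := Finset.sum_le_sum fun j _ => hL j
      _ = s * L := by rw [Finset.sum_const, card_range, nsmul_eq_mul]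
  have h3 : 0 ≤ ∑ j ∈ range s, CH p (u (m + j)) (fun ω => (b (m + j) ω, t ω)) :=
    Finset.sum_nonneg fun j _ => CH_nonneg hp _ _
  linarith

end chain

section main

variable {Ω τ : Type} [Fintype Ω] {β υ η ξ : ℕ → Type}

/-- one window: the height and the data of the lines -/
theorem one {B B' U Y V : Type} {p : Ω → ℝ} (hp : ∀ ω, 0 ≤ p ω) (b : Ω → B) (b' : Ω → B')
    (u : Ω → U) (y : Ω → Y) (v : Ω → V) (t : Ω → τ) {e : ℝ}
    (hv : CH p v (fun ω => (y ω, (b' ω, (b ω, t ω)))) ≤ e) :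
    MI p u (fun ω => (y ω, v ω)) (fun ω => (b ω, t ω)) ≤
      MI p u b' (fun ω => (b ω, t ω)) + MI p u y (fun ω => (b' ω, (b ω, t ω))) + e := by
  rw [MI_eq hp, MI_eq hp, MI_eq hp]
  have c2 : CH p u (fun ω => (y ω, (b' ω, (b ω, t ω)))) ≤
      CH p v (fun ω => (y ω, (b' ω, (b ω, t ω)))) +
        CH p u (fun ω => (v ω, (y ω, (b' ω, (b ω, t ω))))) := CH_le_add hp u v _
  have c3 : CH p u (fun ω => (v ω, (y ω, (b' ω, (b ω, t ω))))) ≤
      CH p u (fun ω => ((y ω, v ω), (b ω, t ω))) := by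
    refine CH_mono_cond hp ?_
    intro ω ω' _ _ h
    simp only [Prod.mk.injEq] at h ⊢
    tauto
  linarith

/-- **(H2)** The sum over the windows. -/
theorem h2f {p : Ω → ℝ} (hp : ∀ ω, 0 ≤ p ω) (b : ∀ j, Ω → β j) (u : ∀ j, Ω → υ j) (t : Ω → τ)
    (y : ∀ j, Ω → η j) (v : ∀ j, Ω → ξ j) {e1 e2 e3 L : ℝ} {n : ℕ} (e4 : ℕ → ℝ)
    (hb : ∀ j < n, CH p (b j) (fun ω => (b (j + 1) ω, t ω)) ≤ e1)
    (hu : ∀ j < n, CH p (u (j + 1)) (fun ω => (u j ω, (b (j + 1) ω, t ω))) ≤ e2)
    (hv : ∀ j < n, CH p (v j) (fun ω => (y j ω, (b (j + 1) ω, (b j ω, t ω)))) ≤ e3)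
    (hL : CH p (u 0) (fun ω => (b 0 ω, t ω)) ≤ L)
    (hy : ∀ j < n, MI p (u j) (y j) (fun ω => (b (j + 1) ω, (b j ω, t ω))) ≤ e4 j) :
    ∑ j ∈ range n, MI p (u j) (fun ω => (y j ω, v j ω)) (fun ω => (b j ω, t ω)) ≤
      L + n * (e1 + e2 + e3) + ∑ j ∈ range n, e4 j := by
  have h1 : ∀ j ∈ range n, MI p (u j) (fun ω => (y j ω, v j ω)) (fun ω => (b j ω, t ω)) ≤
      (CH p (u j) (fun ω => (b j ω, t ω)) - CH p (u (j + 1)) (fun ω => (b (j + 1) ω, t ω))) +
        ((e1 + e2 + e3) + e4 j) := by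
    intro j hj
    rw [mem_range] at hj
    have i1 := one hp (b j) (b (j + 1)) (u j) (y j) (v j) t (hv j hj)
    have i2 := step hp (b j) (b (j + 1)) (u j) (u (j + 1)) t (hb j hj) (hu j hj)
    have i3 := hy j hj
    linarith
  refine (Finset.sum_le_sum h1).trans ?_
  rw [Finset.sum_add_distrib, Finset.sum_add_distrib, Finset.sum_const, card_range, nsmul_eq_mul,
    Finset.sum_range_sub' (fun j => CH p (u j) (fun ω => (b j ω, t ω)))]
  have h2 : 0 ≤ CH p (u n) (fun ω => (b n ω, t ω)) := CH_nonneg hp _ _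
  linarith

/-- The dependence on a full variable. `y'` is the part of the position which is not contained in
the context `C`; it is full given a finer record `s` which determines `(u, C)` up to `e`. -/
theorem mi_full {B U Y Y' S : Type} {p : Ω → ℝ} (hp : ∀ ω, 0 ≤ p ω) (C : Ω → B) (u : Ω → U)
    (y : Ω → Y) (y' : Ω → Y') (s : Ω → S) {D d e : ℝ}
    (h1 : Det p (fun ω => (y' ω, C ω)) y) (h2 : CH p y' C ≤ D) (h3 : D - d ≤ CH p y' s)
    (h4 : CH p (fun ω => (u ω, C ω)) s ≤ e) : MI p u y C ≤ d + e := by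
  have a1 : MI p u y C ≤ MI p u y' C := by
    rw [MI_eq hp, MI_eq hp]
    have := CH_mono_cond hp (X := u) (W' := fun ω => (y' ω, C ω)) (W := fun ω => (y ω, C ω))
      (fun ω ω' a c hh => Prod.ext (h1 ω ω' a c hh) (Prod.ext_iff.mp hh).2)
    linarith
  have a2 : MI p u y' C = CH p y' C - CH p y' (fun ω => (u ω, C ω)) := by
    unfold MI
    rw [CH_chain hp u y' C]
    have e1 : CH p (fun ω => (u ω, y' ω)) C = CH p (fun ω => (y' ω, u ω)) C := by
      refine CH_congr hp ?_ ?_ (fun _ _ _ _ h => h) (fun _ _ _ _ h => h) <;>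
      · intro ω ω' _ _ h
        simp only [Prod.mk.injEq] at h ⊢
        tauto
    have e2 := CH_chain hp u y' C
    have e3 := CH_chain hp y' u C
    linarith
  have a3 : CH p y' s ≤ CH p (fun ω => (u ω, C ω)) s + CH p y' (fun ω => (u ω, C ω)) := by
    have i1 := CH_le_add hp y' (fun ω => (u ω, C ω)) s
    have i2 : CH p y' (fun ω => ((u ω, C ω), s ω)) ≤ CH p y' (fun ω => (u ω, C ω)) :=
      CH_mono_cond hp fun ω ω' _ _ h => (Prod.ext_iff.1 h).1
    linarith
  linarith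

/-- A part of a full variable is full. -/
theorem full_part {Y Y' S : Type} {p : Ω → ℝ} (hp : ∀ ω, 0 ≤ p ω) (y : Ω → Y) (y' : Ω → Y')
    (s : Ω → S) {D d D' : ℝ} (h1 : D - d ≤ CH p y s)
    (h2 : CH p y (fun ω => (y' ω, s ω)) ≤ D - D') : D' - d ≤ CH p y' s := by
  have := CH_le_add hp y y' s
  linarith

end main

end Pool.M5
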