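import Pool.Agent.H81.SLP.Ctx3
import Pool.Agent.H7.SLP.H5N

/-!
# The chain of contexts (input (H2) of the slope law), geometry: recentring

Two boxes of the same sample with the same rounded velocity: a coarse one `(a, w)` and a fine one
`(a', w')`, `a ≤ a'`. The height of the own sheet over the centre of the fine box is a function of
the height over the centre of the coarse box, of the shape on the coarse box, of the two contexts
and of the time, up to boundedly many values; and conversely.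
-/

set_option autoImplicit false

namespace Pool.SLO

open Finset Real MvPolynomial
open Pool.Agent.H49.Ent Pool.Agent.H32.Dense Pool.STK Pool.KA Pool.KSAT Pool.K2S Pool.PB
open Pool.KAL Pool.SLP

section geo

variable {k J : ℕ}

/-- **Values near a slice of the unit cube.** -/
theorem slice_ext (m K : ℕ) : ∃ C : ℝ, 1 ≤ C ∧ ∀ (D : MvPolynomial (Fin m) ℝ) (i₁ : Fin m)
    (τ M : ℝ), D.totalDegree ≤ K → 0 ≤ τ → τ ≤ 1 →
    (∀ b : Fin m → ℝ, (∀ j, 0 ≤ b j ∧ b j ≤ 1) → b i₁ = τ → |eval b D| ≤ M) →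
    ∀ b : Fin m → ℝ, (∀ j, j ≠ i₁ → |b j| ≤ 8) → b i₁ = τ → |eval b D| ≤ C * M := by
  obtain ⟨C, hC, h⟩ := SLP.coef_cube m K
  refine ⟨8 ^ K * C, ?_, ?_⟩
  · have : (1 : ℝ) ≤ 8 ^ K := one_le_pow₀ (by norm_num)
    nlinarith
  intro D i₁ τ M hD h0 h1 hM b hb hbτ
  set D' := fixt i₁ τ D with hD'
  have hdeg : D'.totalDegree ≤ K := (totalDegree_fixt_le _ _ _).trans hD
  have e1 : coefSum D' ≤ C * M := by
    refine h D' M (fun _ => 0) hdeg (fun i => by simp) fun y hy => ?_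
    rw [hD', eval_fixt]
    refine hM _ (fun j => ?_) (Function.update_self _ _ _)
    by_cases hj : j = i₁
    · subst hj
      rw [Function.update_self]
      exact ⟨h0, h1⟩
    · rw [Function.update_of_ne hj]
      have := hy j
      constructor <;> linarith [this.1, this.2]
  have e2 : eval b D = eval (Function.update b i₁ 0) D' := by
    rw [hD', eval_fixt]
    congr 1
    congr 1
    funext j
    by_cases hj : j = i₁
    · subst hj
      rw [Function.update_self, hbτ]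
    · rw [Function.update_of_ne hj, Function.update_of_ne hj]
  have e3 : eval (Function.update b i₁ 0) D' =
      eval (fun j => Function.update b i₁ 0 j / 8) (shf D' 8 (fun _ => 0)) := by
    rw [eval_shf]
    congr 1
    congr 1
    funext j
    ring
  have e4 : coefSum (shf D' 8 (fun _ => 0)) ≤ 8 ^ K * coefSum D' := by
    have k1 := Psi_radius_le D' 1 8 (by norm_num) (fun _ => 0)
    unfold Psi at k1
    rw [one_mul, shf_zero_one] at k1
    refine k1.trans (mul_le_mul_of_nonneg_right (pow_le_pow_right₀ (by norm_num) hdeg)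
      (coefSum_nonneg _))
  rw [e2, e3]
  refine (abs_eval_le_coefSum _ _ fun j => ?_).trans ?_
  · by_cases hj : j = i₁
    · subst hj
      rw [Function.update_self]
      norm_num
    · rw [Function.update_of_ne hj, abs_div, abs_of_pos (show (0 : ℝ) < 8 by norm_num),
        div_le_one (by norm_num)]
      exact hb j hj
  · refine e4.trans ?_
    rw [mul_assoc]
    exact mul_le_mul_of_nonneg_left e1 (by positivity)

/-- The point of the box `(a, w)` which is the point `b` of the box `(a', w')`, at the own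
time. -/
noncomputable def trs {m : ℕ} (F : Fam m J) (i₁ : Fin m) (a w a' w' q : ℕ) (ω : F.Ω)
    (b : Fin m → ℝ) : Fin m → ℝ := fun j => if j = i₁ then F.tw w ω else
  2 ^ a * (sb i₁ a' w' (cw F i₁ a' w' ω) (dq F i₁ q ω) b j - cw F i₁ a w ω j -
    dq F i₁ q ω j * (F.tw w ω / 2 ^ w))

theorem sb_trs {m : ℕ} (F : Fam m J) (i₁ : Fin m) (a w a' w' q : ℕ) (ω : F.Ω)
    (b : Fin m → ℝ) (hb : b i₁ = F.tw w' ω) :
    sb i₁ a w (cw F i₁ a w ω) (dq F i₁ q ω) (trs F i₁ a w a' w' q ω b) =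
      sb i₁ a' w' (cw F i₁ a' w' ω) (dq F i₁ q ω) b := by
  have ht : ∀ w, (F.T1 w ω : ℝ) / 2 ^ w + F.tw w ω / 2 ^ w = F.t ω := fun w => by
    unfold Fam.tw
    field_simp
    ring
  funext j
  by_cases hj : j = i₁
  · subst hj
    have e1 : ∀ a w, cw F j a w ω j = (F.T1 w ω : ℝ) / 2 ^ w := fun a w => by
      unfold cw
      rw [if_pos rfl]
    unfold sb trs
    simp only [if_true]
    rw [e1, e1, hb, ht, ht]
  · have e2 : trs F i₁ a w a' w' q ω b i₁ = F.tw w ω := by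
      unfold trs
      rw [if_pos rfl]
    have e3 : trs F i₁ a w a' w' q ω b j =
        2 ^ a * (sb i₁ a' w' (cw F i₁ a' w' ω) (dq F i₁ q ω) b j - cw F i₁ a w ω j -
          dq F i₁ q ω j * (F.tw w ω / 2 ^ w)) := by
      unfold trs
      rw [if_neg hj]
    have e4 : sb i₁ a w (cw F i₁ a w ω) (dq F i₁ q ω) (trs F i₁ a w a' w' q ω b) j =
        cw F i₁ a w ω j + dq F i₁ q ω j * (trs F i₁ a w a' w' q ω b i₁ / 2 ^ w) +
          trs F i₁ a w a' w' q ω b j / 2 ^ a := by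
      unfold sb
      rw [if_neg hj]
    rw [e4, e2, e3]
    field_simp
    ring

theorem eval_trs {m : ℕ} (F : Fam m J) (i₁ : Fin m) (a w a' w' q : ℕ) (ω : F.Ω)
    (G : MvPolynomial (Fin m) ℝ) (b : Fin m → ℝ) (hb : b i₁ = F.tw w' ω) :
    eval b (plb F i₁ a' w' q ω G) =
      eval (trs F i₁ a w a' w' q ω b) (plb F i₁ a w q ω G) := by
  unfold plb
  rw [eval_pull, eval_pull, sb_trs F i₁ a w a' w' q ω b hb]

theorem pb_mem {m : ℕ} (F : Fam m J) (i₁ : Fin m) {a w q : ℕ} (hw : w ≤ J) (hq : a ≤ q + w)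
    (ω : F.Ω) (j : Fin m) : 0 ≤ pb F i₁ a w q ω j ∧ pb F i₁ a w q ω j ≤ 2 := by
  have t01 := T1_real F hw ω
  have t0 : 0 ≤ F.tw w ω := by
    unfold Fam.tw
    linarith [t01.1]
  have t1 : F.tw w ω ≤ 1 := by
    unfold Fam.tw
    linarith [t01.2]
  have hom := omb_mem F i₁ a w q ω j
  have h1 : (2 : ℝ) ^ a / (2 ^ w * 2 ^ q) ≤ 1 := by
    rw [div_le_one (by positivity), ← pow_add]
    exact pow_le_pow_right₀ (by norm_num) (by omega)
  have hy := yb_mem F i₁ a w ω j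
  have hm : F.tw w ω * omb F i₁ a w q ω j ≤ 1 * 1 :=
    mul_le_mul t1 (hom.2.trans h1) hom.1 zero_le_one
  have hm0 := mul_nonneg t0 hom.1
  unfold pb pnt
  split_ifs
  · constructor <;> linarith
  · constructor <;> linarith

/-- The image of the fine box is near the coarse box. -/
theorem trs_le {m : ℕ} (F : Fam m J) (i₁ : Fin m) {a w a' w' q : ℕ} (hw : w ≤ J) (hw' : w' ≤ J)
    (hq : a ≤ q + w) (hq' : a' ≤ q + w') (haa : a ≤ a') (ω : F.Ω) (b : Fin m → ℝ)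
    (hb : b i₁ = F.tw w' ω) (hb1 : ∀ j, j ≠ i₁ → |b j| ≤ 4) (j : Fin m) (hj : j ≠ i₁) :
    |trs F i₁ a w a' w' q ω b j| ≤ 6 + 2 := by
  have k1 := congrFun (sb_pb F i₁ a w q ω) j
  have k2 := congrFun (sb_pb F i₁ a' w' q ω) j
  have p1 := pb_mem F i₁ hw hq ω j
  have p2 := pb_mem F i₁ hw' hq' ω j
  have e1 : ∀ a w, pb F i₁ a w q ω i₁ = F.tw w ω := fun a w => by
    unfold pb pnt
    rw [if_pos rfl]
  have k1' : cw F i₁ a w ω j + dq F i₁ q ω j * (F.tw w ω / 2 ^ w) +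
      pb F i₁ a w q ω j / 2 ^ a = bp F i₁ ω j := by
    rw [← k1]
    unfold sb
    rw [if_neg hj, e1]
  have k2' : cw F i₁ a' w' ω j + dq F i₁ q ω j * (F.tw w' ω / 2 ^ w') +
      pb F i₁ a' w' q ω j / 2 ^ a' = bp F i₁ ω j := by
    rw [← k2]
    unfold sb
    rw [if_neg hj, e1]
  have e5 : sb i₁ a' w' (cw F i₁ a' w' ω) (dq F i₁ q ω) b j = cw F i₁ a' w' ω j +
      dq F i₁ q ω j * (F.tw w' ω / 2 ^ w') + b j / 2 ^ a' := by
    unfold sb
    rw [if_neg hj, hb]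
  have e6 : trs F i₁ a w a' w' q ω b j = pb F i₁ a w q ω j +
      2 ^ a / 2 ^ a' * (b j - pb F i₁ a' w' q ω j) := by
    unfold trs
    rw [if_neg hj, e5]
    have h1 : (2 : ℝ) ^ a ≠ 0 := by positivity
    have h2 : (2 : ℝ) ^ a' ≠ 0 := by positivity
    have e7 : cw F i₁ a' w' ω j + dq F i₁ q ω j * (F.tw w' ω / 2 ^ w') + b j / 2 ^ a' -
        cw F i₁ a w ω j - dq F i₁ q ω j * (F.tw w ω / 2 ^ w) =
        pb F i₁ a w q ω j / 2 ^ a + (b j - pb F i₁ a' w' q ω j) / 2 ^ a' := by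
      have : (b j - pb F i₁ a' w' q ω j) / 2 ^ a' = b j / 2 ^ a' - pb F i₁ a' w' q ω j / 2 ^ a' :=
        sub_div _ _ _
      rw [this]
      linarith
    rw [e7]
    field_simp
  rw [e6]
  have h3 : (2 : ℝ) ^ a / 2 ^ a' ≤ 1 := by
    rw [div_le_one (by positivity)]
    exact pow_le_pow_right₀ (by norm_num) haa
  have h30 : (0 : ℝ) ≤ 2 ^ a / 2 ^ a' := by positivity
  have h4 : |b j - pb F i₁ a' w' q ω j| ≤ 6 := by
    have := abs_le.1 (hb1 j hj)
    rw [abs_le]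
    constructor <;> linarith [this.1, this.2, p2.1, p2.2]
  refine (abs_add_le _ _).trans ?_
  rw [abs_mul, abs_of_nonneg h30, abs_of_nonneg p1.1]
  have h5 : (2 : ℝ) ^ a / 2 ^ a' * |b j - pb F i₁ a' w' q ω j| ≤ 1 * 6 :=
    mul_le_mul h3 h4 (abs_nonneg _) zero_le_one
  linarith [p1.2]

/-- `trs` is a function of the two contexts and the time. -/
theorem trs_ext {m : ℕ} {F : Fam m J} {i₁ : Fin m} {a w a' w' q P P' : ℕ}
    {H H' : ((Fin m → ℝ) × (Fin m → ℝ)) × F.ζ × ℕ → MvPolynomial (Fin m) ℝ} {ω ω' : F.Ω}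
    (h : ctx F i₁ a w q P H ω = ctx F i₁ a w q P H ω')
    (h' : ctx F i₁ a' w' q P' H' ω = ctx F i₁ a' w' q P' H' ω') (ht : F.tw w ω = F.tw w ω')
    (b : Fin m → ℝ) : trs F i₁ a w a' w' q ω b = trs F i₁ a w a' w' q ω' b := by
  obtain ⟨-, -, -, h4, h5, -⟩ := ctx_ext h
  obtain ⟨-, -, -, g4, -⟩ := ctx_ext h'
  unfold trs
  rw [h4, h5, g4, ht]

/-- The time in the window is a function of the exact time. -/
theorem tw_ext {m : ℕ} {F : Fam m J} {ω ω' : F.Ω} (h : F.W ω = F.W ω') (w : ℕ) :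
    F.tw w ω = F.tw w ω' ∧ F.T1 w ω = F.T1 w ω' ∧ F.Z ω = F.Z ω' := by
  have h1 : F.T ω = F.T ω' := (Prod.ext_iff.mp h).1
  have h2 : F.Z ω = F.Z ω' := (Prod.ext_iff.mp h).2
  refine ⟨?_, ?_, h2⟩
  · unfold Fam.tw Fam.T1 Fam.t
    rw [h1]
  · unfold Fam.T1
    rw [h1]

theorem mono_le (al : Fin k → ℕ) {K : ℕ} (hal : ∑ j, al j ≤ K) {z : Fin k → ℝ}
    (hz : ∀ j, |z j| ≤ 8) : |Pool.M5.mono al z| ≤ 8 ^ K := by
  unfold Pool.M5.mono
  rw [Finset.abs_prod]
  calc ∏ j, |z j ^ al j| ≤ ∏ j, (8 : ℝ) ^ al j := by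
        refine Finset.prod_le_prod (fun j _ => abs_nonneg _) fun j _ => ?_
        rw [abs_pow]
        exact pow_le_pow_left₀ (abs_nonneg _) (hz j) _
    _ = 8 ^ ∑ j, al j := by rw [Finset.prod_pow_eq_pow_sum]
    _ ≤ 8 ^ K := pow_le_pow_right₀ (by norm_num) hal

/-- The difference of the sheets of two consecutive contexts at the own time. -/
def GG (F : Fam (k + 1) J) (i₁ : Fin (k + 1)) (a' w' q s : ℕ) (C₀ : ℝ)
    (G G' : F.Ω → MvPolynomial (Fin (k + 1)) ℝ) (ω : F.Ω) : Prop :=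
  ∀ z : Fin (k + 1) → ℝ, (∀ i, 0 ≤ z i ∧ z i ≤ 1) → z i₁ = F.tw w' ω →
    |eval z (plb F i₁ a' w' q ω (G' ω)) - eval z (plb F i₁ a' w' q ω (G ω))| ≤ C₀ / 2 ^ s

/-- **Recentring**, the identity: the difference of the heights of two samples with the same
contexts and the same time. -/
theorem recentre (k K : ℕ) (C₀ : ℝ) (hC₀ : 1 ≤ C₀) : ∃ B : ℝ, 1 ≤ B ∧ ∀ (J : ℕ)
    (F : Fam (k + 1) J) (i₁ : Fin (k + 1)) (a w a' w' q P P' e X : ℕ)
    (H H' : ((Fin (k + 1) → ℝ) × (Fin (k + 1) → ℝ)) × F.ζ × ℕ → MvPolynomial (Fin (k + 1)) ℝ)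
    (G G' : F.Ω → MvPolynomial (Fin (k + 1)) ℝ) (ω ω' : F.Ω), w ≤ J → w' ≤ J → a ≤ q + w →
    a' ≤ q + w' → a ≤ a' → (G ω).totalDegree ≤ K → (G ω').totalDegree ≤ K →
    GG F i₁ a' w' q (e + X) C₀ G G' ω → GG F i₁ a' w' q (e + X) C₀ G G' ω' →
    ctx F i₁ a w q P H ω = ctx F i₁ a w q P H ω' →
    ctx F i₁ a' w' q P' H' ω = ctx F i₁ a' w' q P' H' ω' → F.W ω = F.W ω' →
    (∀ al, |shw F i₁ a w q K P e H G ω al - shw F i₁ a w q K P e H G ω' al| ≤ 1 / 2 ^ X) →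
    |(nuw F i₁ a' w' q K P' e H' G' ω - nuw F i₁ a' w' q K P' e H' G' ω') -
      (nuw F i₁ a w q K P e H G ω - nuw F i₁ a w q K P e H G ω')| ≤ B / 2 ^ X := by
  refine ⟨(Fintype.card (Pool.M5.Mon k K) : ℝ) * 8 ^ K + 2 * C₀, ?_, ?_⟩
  · have : (0 : ℝ) ≤ (Fintype.card (Pool.M5.Mon k K) : ℝ) * 8 ^ K := by positivity
    linarith
  intro J F i₁ a w a' w' q P P' e X H H' G G' ω ω' hw hw' hq hq' haa hG hG' hg hg' hc hc' hW hs
  have hXp : (0 : ℝ) < 2 ^ X := by positivity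
  have hep : (0 : ℝ) < 2 ^ e := by positivity
  obtain ⟨t1, -, -⟩ := tw_ext hW w
  obtain ⟨t1', -, -⟩ := tw_ext hW w'
  -- the centre of the fine box
  set b0 : Fin (k + 1) → ℝ := pnt i₁ 0 0 (F.tw w' ω) with hb0
  have hb0i : b0 i₁ = F.tw w' ω := by
    rw [hb0]
    unfold pnt
    rw [if_pos rfl]
  have hb0j : ∀ j, j ≠ i₁ → b0 j = 0 := by
    intro j hj
    rw [hb0]
    unfold pnt
    rw [if_neg hj]
    simp
  set z0 := trs F i₁ a w a' w' q ω b0 with hz0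
  have hz0' : trs F i₁ a w a' w' q ω' b0 = z0 := (trs_ext hc hc' t1 b0).symm
  have hz0i : z0 i₁ = F.tw w ω := by
    rw [hz0]
    unfold trs
    rw [if_pos rfl]
  have hz0p : pnt i₁ z0 0 (F.tw w ω) = z0 := by
    funext j
    unfold pnt
    by_cases hj : j = i₁
    · rw [if_pos hj, hj, hz0i]
    · rw [if_neg hj]
      simp
  have hz8 : ∀ j : Fin k, |z0 (i₁.succAbove j)| ≤ 8 := by
    intro j
    have := trs_le F i₁ hw hw' hq hq' haa ω b0 hb0i (fun j hj => by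
      rw [hb0j j hj]
      norm_num) (i₁.succAbove j) (Fin.succAbove_ne i₁ j)
    rw [← hz0] at this
    norm_num at this
    exact this
  obtain ⟨-, -, -, -, -, -, r7, -⟩ := ctx_ext hc
  obtain ⟨-, -, -, -, -, -, r7', -⟩ := ctx_ext hc'
  have tt0 := T1_real F hw' ω
  have hcube : ∀ i, 0 ≤ b0 i ∧ b0 i ≤ 1 := by
    intro i
    by_cases hi : i = i₁
    · rw [hi, hb0i]
      unfold Fam.tw
      constructor <;> linarith [tt0.1, tt0.2]
    · rw [hb0j i hi]
      norm_num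
  -- the height over the centre of the fine box
  have key : ∀ ω₀ : F.Ω, F.tw w ω₀ = F.tw w ω → F.tw w' ω₀ = F.tw w' ω →
      trs F i₁ a w a' w' q ω₀ b0 = z0 → (G ω₀).totalDegree ≤ K →
      Rc F i₁ a w q K P H ω₀ = Rc F i₁ a w q K P H ω →
      Rc F i₁ a' w' q K P' H' ω₀ = Rc F i₁ a' w' q K P' H' ω →
      nuw F i₁ a' w' q K P' e H' G' ω₀ = nuw F i₁ a w q K P e H G ω₀ +
        ∑ al : Pool.M5.Mon k K, shw F i₁ a w q K P e H G ω₀ al *
          Pool.M5.mono (al : Fin k → ℕ) (fun j => z0 (i₁.succAbove j)) +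
        2 ^ e * (eval z0 (Rc F i₁ a w q K P H ω) - eval b0 (Rc F i₁ a' w' q K P' H' ω)) +
        2 ^ e * (eval b0 (plb F i₁ a' w' q ω₀ (G' ω₀)) -
          eval b0 (plb F i₁ a' w' q ω₀ (G ω₀))) := by
    intro ω₀ h1 h2 h3 h4 h5 h6
    have hD : (plb F i₁ a w q ω₀ (G ω₀)).totalDegree ≤ K :=
      (totalDegree_pull_le _ _ _ _ _ _).trans h4
    have s1 := shp_eq e i₁ (plb F i₁ a w q ω₀ (G ω₀)) (Rc F i₁ a w q K P H ω₀) hD
      (totalDegree_rdz _ _ _) (F.tw w ω) z0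
    rw [hz0p] at s1
    unfold shp at s1
    rw [hz0i] at s1
    have s2 := eval_trs F i₁ a w a' w' q ω₀ (G ω₀) b0 (hb0i.trans h2.symm)
    rw [h3] at s2
    unfold nuw shw
    rw [h1, h2]
    unfold nub at s1 ⊢
    rw [← hb0] at *
    rw [s2]
    rw [h5] at s1 ⊢
    rw [h6]
    linarith
  rw [key ω rfl rfl rfl hG rfl rfl, key ω' t1.symm t1'.symm hz0' hG' (r7 K).symm (r7' K).symm]
  have e1 : ∀ (n n' : ℝ) (S S' R D D' : ℝ),
      (n + S + R + D) - (n' + S' + R + D') - (n - n') = (S - S') + (D - D') := by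
    intros
    ring
  rw [e1, ← Finset.sum_sub_distrib]
  have e2 : |∑ al : Pool.M5.Mon k K, (shw F i₁ a w q K P e H G ω al *
        Pool.M5.mono (al : Fin k → ℕ) (fun j => z0 (i₁.succAbove j)) -
      shw F i₁ a w q K P e H G ω' al *
        Pool.M5.mono (al : Fin k → ℕ) (fun j => z0 (i₁.succAbove j)))| ≤
      (Fintype.card (Pool.M5.Mon k K) : ℝ) * (1 / 2 ^ X * 8 ^ K) := by
    refine (Finset.abs_sum_le_sum_abs _ _).trans ?_
    have h1 : ∀ al ∈ (Finset.univ : Finset (Pool.M5.Mon k K)),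
        |shw F i₁ a w q K P e H G ω al *
          Pool.M5.mono (al : Fin k → ℕ) (fun j => z0 (i₁.succAbove j)) -
        shw F i₁ a w q K P e H G ω' al *
          Pool.M5.mono (al : Fin k → ℕ) (fun j => z0 (i₁.succAbove j))| ≤
        1 / 2 ^ X * 8 ^ K := by
      intro al _
      rw [← sub_mul, abs_mul]
      have hal : ∑ j, (al : Fin k → ℕ) j ≤ K := by
        have := al.2
        unfold Pool.M5.Mon at this
        exact (Finset.mem_filter.1 this).2.2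
      exact mul_le_mul (hs al) (mono_le _ hal hz8) (abs_nonneg _) (by positivity)
    refine (Finset.sum_le_sum h1).trans (le_of_eq ?_)
    rw [Finset.sum_const, Finset.card_univ, nsmul_eq_mul]
  have e3 : ∀ ω₀ : F.Ω, F.tw w' ω₀ = F.tw w' ω → GG F i₁ a' w' q (e + X) C₀ G G' ω₀ →
      |2 ^ e * (eval b0 (plb F i₁ a' w' q ω₀ (G' ω₀)) -
        eval b0 (plb F i₁ a' w' q ω₀ (G ω₀)))| ≤ C₀ / 2 ^ X := by
    intro ω₀ h2 h
    rw [abs_mul, abs_of_pos hep]
    calc (2 : ℝ) ^ e * _ ≤ 2 ^ e * (C₀ / 2 ^ (e + X)) :=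
          mul_le_mul_of_nonneg_left (h b0 hcube (hb0i.trans h2.symm)) hep.le
      _ = C₀ / 2 ^ X := by
        rw [pow_add]
        field_simp
  have f1 := e3 ω rfl hg
  have f2 := e3 ω' t1'.symm hg'
  refine (abs_add_le _ _).trans ?_
  have f3 := abs_sub (2 ^ e * (eval b0 (plb F i₁ a' w' q ω (G' ω)) -
        eval b0 (plb F i₁ a' w' q ω (G ω)))) (2 ^ e * (eval b0 (plb F i₁ a' w' q ω' (G' ω')) -
        eval b0 (plb F i₁ a' w' q ω' (G ω'))))
  have e4 : ((Fintype.card (Pool.M5.Mon k K) : ℝ) * 8 ^ K + 2 * C₀) / 2 ^ X =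
      (Fintype.card (Pool.M5.Mon k K) : ℝ) * (1 / 2 ^ X * 8 ^ K) + (C₀ / 2 ^ X + C₀ / 2 ^ X) := by
    ring
  rw [e4]
  linarith

end geo

end Pool.SLO
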