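import Pool.Agent.H31.M5.H2
import Pool.Agent.H48.OC.Step
import Pool.Agent.H35.K2S.Stab

/-!
# The chain of contexts (input (H2) of the slope law), pure part

The chain of `H2.lean` with errors which depend on the window, and with bad lines.
-/

set_option autoImplicit false

namespace Pool.M5

open Finset Real
open Pool.Agent.H49.Ent Pool.Agent.H32.Dense Pool.STK Pool.KVA Pool.K2S

section bad

variable {Ω S U Z C : Type} [Fintype Ω]

open Classical in
/-- One bit more in the condition. -/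
theorem ch_bit' {p : Ω → ℝ} (hp : IsLaw p) (u : Ω → U) (b : Ω → C) (g : Ω → Prop) :
    CH p u b ≤ CH p u (fun ω => (b ω, g ω)) + Real.log 2 := by
  have h1 := CH_le_add hp.nonneg u g b
  have h2 : CH p g b ≤ Real.log 2 := by
    have := CH_le_card hp.nonneg hp.sum_one g b (fun _ => ({True, False} : Finset Prop))
      (fun ω _ => by
        by_cases h : g ω
        · simp [h]
        · simp [h])
    refine this.trans (le_of_eq ?_)
    rw [Ex_const hp.sum_one]
    congr 1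
    rw [Finset.card_pair (by simp)]
    norm_num
  have h3 : CH p u (fun ω => (g ω, b ω)) = CH p u (fun ω => (b ω, g ω)) := by
    refine CH_congr hp.nonneg ?_ ?_ ?_ ?_ <;> intro ω ω' _ _ h <;>
      simp only [Prod.mk.injEq] at h ⊢ <;> tauto
  linarith

open Classical in
/-- **Bad events.** `out` is a function of `(z, c)` up to `B` on the event `g`, and the entropy of
`u` outside `g` is at most `S`. -/
theorem mi_bad {p : Ω → ℝ} (hp : IsLaw p) (u : Ω → U) (out : Ω → S) (z : Ω → Z) (c : Ω → C)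
    (g : Ω → Prop) {B E : ℝ}
    (hB : ∀ ω, 0 < p ω → g ω → CH (cond p g True) out (fun ω => (z ω, c ω)) ≤ B)
    (hE : ∀ ω, 0 < p ω → ¬ g ω → CH (cond p g False) u (fun ω => (z ω, c ω)) ≤ E) (hB0 : 0 ≤ B) :
    MI p u out c ≤ MI p u z c + Real.log 2 + B + Pe p (fun ω => ¬ g ω) * E := by
  have hp0 := hp.nonneg
  rw [MI_eq hp0, MI_eq hp0]
  have h1 : CH p u (fun ω => (((out ω, (z ω, c ω))), g ω)) ≤ CH p u (fun ω => (out ω, c ω)) :=
    CH_mono_cond hp0 fun ω ω' _ _ h => by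
      simp only [Prod.mk.injEq] at h ⊢
      tauto
  have h2 := ch_bit' hp u (fun ω => (z ω, c ω)) g
  have e1 := Pool.OCG.CH_pair_eq_Ex hp0 u (fun ω => (out ω, (z ω, c ω))) g
  have e2 := Pool.OCG.CH_pair_eq_Ex hp0 u (fun ω => (z ω, c ω)) g
  have h3 : Ex p (fun ω => CH (cond p g (g ω)) u (fun ω => (z ω, c ω)) - (if g ω then B else E)) ≤
      Ex p (fun ω => CH (cond p g (g ω)) u (fun ω => (out ω, (z ω, c ω)))) := by
    refine Ex_mono hp0 fun ω hω => ?_
    have hq0 : ∀ v, 0 ≤ cond p g (g ω) v := fun v => cond_nonneg hp0 g _ v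
    by_cases h : g ω
    · have hT : g ω = True := eq_true h
      rw [if_pos h, hT]
      rw [hT] at hq0
      have a1 := CH_le_add hq0 u out (fun ω => (z ω, c ω))
      have a2 := hB ω hω h
      linarith
    · have hF : g ω = False := eq_false h
      rw [if_neg h, hF]
      rw [hF] at hq0
      have a1 := hE ω hω h
      have a2 := CH_nonneg hq0 u (fun ω => (out ω, (z ω, c ω)))
      linarith
  have h4 : Ex p (fun ω => CH (cond p g (g ω)) u (fun ω => (z ω, c ω)) -
      (if g ω then B else E)) = Ex p (fun ω => CH (cond p g (g ω)) u (fun ω => (z ω, c ω))) -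
      Ex p (fun ω => if g ω then B else E) := Ex_sub _ _ _
  have h5 : Ex p (fun ω => if g ω then B else E) ≤ B + Pe p (fun ω => ¬ g ω) * E := by
    have h6 : Ex p (fun ω => if g ω then B else E) =
        Pe p g * B + Pe p (fun ω => ¬ g ω) * E := by
      unfold Ex
      rw [Pe_eq, Pe_eq, Finset.sum_mul, Finset.sum_mul, ← Finset.sum_add_distrib]
      refine Finset.sum_congr rfl fun ω _ => ?_
      by_cases h : g ω
      · simp [h]
      · simp [h]
    rw [h6]
    have h7 : Pe p g ≤ 1 := by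
      rw [← Pe_univ hp]
      exact Pe_mono hp fun _ _ => trivial
    nlinarith
  linarith

end bad

section chain2

variable {Ω τ : Type} [Fintype Ω] {β υ η ξ : ℕ → Type}

/-- **One step of the chain.** `y` is the position in the box of the next window. -/
theorem h2s {B B' U U' Y O : Type} {p : Ω → ℝ} (hp : ∀ ω, 0 ≤ p ω) (b : Ω → B) (b' : Ω → B')
    (u : Ω → U) (u' : Ω → U') (t : Ω → τ) (y : Ω → Y) (out : Ω → O) {e1 e2 e3 e4 : ℝ}
    (hb : CH p b (fun ω => (b' ω, t ω)) ≤ e1)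
    (hu : CH p u' (fun ω => (u ω, (b' ω, (b ω, t ω)))) ≤ e2)
    (hv : MI p u out (fun ω => (b ω, t ω)) ≤
      MI p u (fun ω => (y ω, b' ω)) (fun ω => (b ω, t ω)) + e3)
    (hy : MI p u y (fun ω => (b' ω, (b ω, t ω))) ≤ e4) :
    MI p u out (fun ω => (b ω, t ω)) ≤ CH p u (fun ω => (b ω, t ω)) -
      CH p u' (fun ω => (b' ω, t ω)) + (e1 + e2 + e3 + e4) := by
  rw [MI_eq hp] at hy
  rw [MI_eq hp u (fun ω => (y ω, b' ω))] at hv
  have c0 : CH p u (fun ω => ((y ω, b' ω), (b ω, t ω))) =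
      CH p u (fun ω => (y ω, (b' ω, (b ω, t ω)))) := by
    refine CH_congr hp ?_ ?_ ?_ ?_ <;> intro ω ω' _ _ h <;> simp only [Prod.mk.injEq] at h ⊢ <;>
      tauto
  have c1 := CH_le_add hp u' b (fun ω => (b' ω, t ω))
  have c2 : CH p u' (fun ω => (b ω, (b' ω, t ω))) =
      CH p u' (fun ω => (b' ω, (b ω, t ω))) := by
    refine CH_congr hp ?_ ?_ ?_ ?_ <;> intro ω ω' _ _ h <;> simp only [Prod.mk.injEq] at h ⊢ <;>
      tauto
  have c3 := CH_le_add hp u' u (fun ω => (b' ω, (b ω, t ω)))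
  linarith

/-- **The chain** with errors depending on the window. `Z j` is the position in the box of the next
window. -/
theorem h2g {p : Ω → ℝ} (hp : ∀ ω, 0 ≤ p ω) (b : ∀ j, Ω → β j) (u : ∀ j, Ω → υ j) (t : Ω → τ)
    (y : ∀ j, Ω → η j) (out : ∀ j, Ω → ξ j) (e1 e2 e3 e4 : ℕ → ℝ) {L : ℝ} {n : ℕ}
    (hb : ∀ j < n, CH p (b j) (fun ω => (b (j + 1) ω, t ω)) ≤ e1 j)
    (hu : ∀ j < n, CH p (u (j + 1)) (fun ω => (u j ω, (b (j + 1) ω, (b j ω, t ω)))) ≤ e2 j)
    (hv : ∀ j < n, MI p (u j) (out j) (fun ω => (b j ω, t ω)) ≤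
      MI p (u j) (fun ω => (y j ω, b (j + 1) ω)) (fun ω => (b j ω, t ω)) + e3 j)
    (hL : CH p (u 0) (fun ω => (b 0 ω, t ω)) ≤ L)
    (hy : ∀ j < n, MI p (u j) (y j) (fun ω => (b (j + 1) ω, (b j ω, t ω))) ≤ e4 j) :
    ∑ j ∈ range n, MI p (u j) (out j) (fun ω => (b j ω, t ω)) ≤
      L + ∑ j ∈ range n, (e1 j + e2 j + e3 j + e4 j) := by
  have h1 : ∀ j ∈ range n, MI p (u j) (out j) (fun ω => (b j ω, t ω)) ≤
      (CH p (u j) (fun ω => (b j ω, t ω)) - CH p (u (j + 1)) (fun ω => (b (j + 1) ω, t ω))) +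
        (e1 j + e2 j + e3 j + e4 j) := by
    intro j hj
    rw [mem_range] at hj
    have i1 := hb j hj
    have i2 := hu j hj
    have i3 := hv j hj
    have i4 := hy j hj
    rw [MI_eq hp] at i4
    rw [MI_eq hp (u j) (fun ω => (y j ω, b (j + 1) ω))] at i3
    have c0 : CH p (u j) (fun ω => ((y j ω, b (j + 1) ω), (b j ω, t ω))) =
        CH p (u j) (fun ω => (y j ω, (b (j + 1) ω, (b j ω, t ω)))) := by
      refine CH_congr hp ?_ ?_ ?_ ?_ <;> intro ω ω' _ _ h <;> simp only [Prod.mk.injEq] at h ⊢ <;>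
        tauto
    have c1 := CH_le_add hp (u (j + 1)) (b j) (fun ω => (b (j + 1) ω, t ω))
    have c2 : CH p (u (j + 1)) (fun ω => (b j ω, (b (j + 1) ω, t ω))) =
        CH p (u (j + 1)) (fun ω => (b (j + 1) ω, (b j ω, t ω))) := by
      refine CH_congr hp ?_ ?_ ?_ ?_ <;> intro ω ω' _ _ h <;> simp only [Prod.mk.injEq] at h ⊢ <;>
        tauto
    have c3 := CH_le_add hp (u (j + 1)) (u j) (fun ω => (b (j + 1) ω, (b j ω, t ω)))
    linarith
  refine (Finset.sum_le_sum h1).trans ?_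
  rw [Finset.sum_add_distrib,
    Finset.sum_range_sub' (fun j => CH p (u j) (fun ω => (b j ω, t ω)))]
  have h2 : 0 ≤ CH p (u n) (fun ω => (b n ω, t ω)) := CH_nonneg hp _ _
  linarith

/-- The dependence with the additional digits in the first variable. -/
theorem mi_shape {U V S B C' : Type} {p : Ω → ℝ} (hp : ∀ ω, 0 ≤ p ω) (u : Ω → U) (v : Ω → V)
    (s : Ω → S) (c : Ω → B) (c' : Ω → C')
    (h1 : Det p (fun ω => (s ω, c ω)) c') (h2 : Det p c' (fun ω => (s ω, c ω))) :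
    MI p u v c' ≤ MI p u v c + CH p s c := by
  have e1 : MI p u v c' = MI p u v (fun ω => (s ω, c ω)) := by
    rw [MI_eq hp, MI_eq hp]
    have a1 : CH p u c' = CH p u (fun ω => (s ω, c ω)) :=
      CH_congr hp (fun _ _ _ _ h => (Prod.ext_iff.1 h).1) (fun _ _ _ _ h => (Prod.ext_iff.1 h).1)
        h2 h1
    have a2 : CH p u (fun ω => (v ω, c' ω)) = CH p u (fun ω => (v ω, (s ω, c ω))) := by
      refine CH_congr hp (fun _ _ _ _ h => (Prod.ext_iff.1 h).1)
        (fun _ _ _ _ h => (Prod.ext_iff.1 h).1) ?_ ?_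
      · intro ω ω' a b h
        obtain ⟨x1, x2⟩ := Prod.ext_iff.1 h
        exact Prod.ext x1 (h2 ω ω' a b x2)
      · intro ω ω' a b h
        obtain ⟨x1, x2⟩ := Prod.ext_iff.1 h
        exact Prod.ext x1 (h1 ω ω' a b x2)
    rw [a1, a2]
  rw [e1, MI_eq hp, MI_eq hp]
  have a1 : CH p u (fun ω => (s ω, c ω)) ≤ CH p u c :=
    CH_mono_cond hp fun _ _ _ _ h => (Prod.ext_iff.1 h).2
  have a2 := CH_le_add hp u s (fun ω => (v ω, c ω))
  have a3 : CH p s (fun ω => (v ω, c ω)) ≤ CH p s c :=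
    CH_mono_cond hp fun _ _ _ _ h => (Prod.ext_iff.1 h).2
  have a4 : CH p u (fun ω => (s ω, (v ω, c ω))) = CH p u (fun ω => (v ω, (s ω, c ω))) := by
    refine CH_congr hp ?_ ?_ ?_ ?_ <;> intro ω ω' _ _ h <;> simp only [Prod.mk.injEq] at h ⊢ <;>
      tauto
  linarith

end chain2

end Pool.M5
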