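import Pool.Agent.H31.M5.H2Xa
import Pool.Agent.H31.M5.L1W

/-!
# The chain of contexts (input (H2) of the slope law), bounds on typical lines

On a line which has `K + 1` samples at separated times in the window, polynomials in the time which
are bounded at the samples are bounded on the window.
-/

set_option autoImplicit false

namespace Pool.SLO

open Finset Real MvPolynomial
open Pool.Agent.H49.Ent Pool.Agent.H32.Dense Pool.STK Pool.KA Pool.KSAT Pool.K2S Pool.PB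
open Pool.KAL Pool.SLP

section bnd

variable {m J : ℕ}

/-- The line in the window has `K + 1` samples at separated times. -/
def Spt (F : Fam m J) (p : F.Ω → ℝ) (w k₀ K : ℕ) (ω : F.Ω) : Prop :=
  ∃ v : Fin (K + 1) → F.Ω, (∀ i, 0 < p (v i) ∧ slam F w (v i) = slam F w ω) ∧
    ∀ i j, i ≠ j → 1 / 2 ^ (w + k₀) ≤ |F.t (v i) - F.t (v j)|

/-- A polynomial bounded at separated points of the unit interval. -/
theorem pol_sep {K k₀ : ℕ} {q : Polynomial ℝ} {M : ℝ} (hq : q.natDegree ≤ K)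
    {θ : Fin (K + 1) → ℝ} (h0 : ∀ j, 0 ≤ θ j ∧ θ j ≤ 1)
    (hs : ∀ j j', j ≠ j' → (2 : ℝ) ^ (-(k₀ : ℤ)) ≤ |θ j - θ j'|)
    (hM : ∀ j, |q.eval (θ j)| ≤ M) {s : ℝ} (hs0 : 0 ≤ s) (hs1 : s ≤ 1) :
    |q.eval s| ≤ (K + 1) * 2 ^ (k₀ * K) * M := by
  have h1 : q = Lagrange.interpolate univ θ (fun j => q.eval (θ j)) := by
    refine Lagrange.eq_interpolate_of_eval_eq _ (Pool.M5.L31.inj_of_sep hs).injOn ?_
      fun j _ => rfl
    rw [Finset.card_univ, Fintype.card_fin]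
    refine lt_of_le_of_lt (Polynomial.degree_le_natDegree) ?_
    exact_mod_cast Nat.lt_succ_of_le hq
  rw [h1]
  exact Pool.M5.L31.interp_le h0 ⟨hs0, hs1⟩ hs hM

/-- The times of the samples in the window. -/
theorem Spt.tw {F : Fam m J} {p : F.Ω → ℝ} {w k₀ K : ℕ} (hw : w ≤ J) {ω : F.Ω}
    {v : Fin (K + 1) → F.Ω} (h1 : ∀ i, 0 < p (v i) ∧ slam F w (v i) = slam F w ω)
    (h2 : ∀ i j, i ≠ j → 1 / 2 ^ (w + k₀) ≤ |F.t (v i) - F.t (v j)|) :
    (∀ j, 0 ≤ F.tw w (v j) ∧ F.tw w (v j) ≤ 1) ∧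
      ∀ j j', j ≠ j' → (2 : ℝ) ^ (-(k₀ : ℤ)) ≤ |F.tw w (v j) - F.tw w (v j')| := by
  constructor
  · intro j
    have t01 := T1_real F hw (v j)
    unfold Fam.tw
    constructor <;> linarith [t01.1, t01.2]
  · intro j j' hj
    have e1 : F.T1 w (v j) = F.T1 w (v j') := by
      rw [(of_slam (h1 j).2).1, (of_slam (h1 j').2).1]
    have e2 : F.tw w (v j) - F.tw w (v j') = 2 ^ w * (F.t (v j) - F.t (v j')) := by
      unfold Fam.tw
      rw [e1]
      ring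
    rw [e2, abs_mul, abs_of_pos (show (0 : ℝ) < 2 ^ w by positivity)]
    have h3 := mul_le_mul_of_nonneg_left (h2 j j' hj) (show (0 : ℝ) ≤ 2 ^ w by positivity)
    refine le_trans (le_of_eq ?_) h3
    rw [zpow_neg, zpow_natCast, pow_add]
    field_simp

/-- A polynomial in the time which is a function of the line. -/
theorem Spt.bnd {F : Fam m J} {p : F.Ω → ℝ} {w k₀ K : ℕ} (hw : w ≤ J) {ω : F.Ω}
    (h : Spt F p w k₀ K ω) {q : Polynomial ℝ} (hq : q.natDegree ≤ K) {M : ℝ}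
    (hM : ∀ v, 0 < p v → slam F w v = slam F w ω → |q.eval (F.tw w v)| ≤ M) {s : ℝ}
    (hs0 : 0 ≤ s) (hs1 : s ≤ 1) : |q.eval s| ≤ (K + 1) * 2 ^ (k₀ * K) * M := by
  obtain ⟨v, h1, h2⟩ := h
  obtain ⟨a1, a2⟩ := Spt.tw hw h1 h2
  exact pol_sep hq a1 a2 (fun j => hM _ (h1 j).1 (h1 j).2) hs0 hs1

theorem slam_of_slam (F : Fam m J) {w w' : ℕ} (h : w' ≤ w) (hw : w ≤ J) {ω ω' : F.Ω}
    (e : slam F w ω = slam F w ω') : slam F w' ω = slam F w' ω' := by
  rw [slam_coarse F h hw ω, slam_coarse F h hw ω', e]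

end bnd

section bnd2

variable {k J : ℕ}

/-- The support hypotheses for one context. -/
structure Sup (F : Fam (k + 1) J) (i₁ : Fin (k + 1)) (a w q K P e X : ℕ) (C₀ : ℝ)
    (H : ((Fin (k + 1) → ℝ) × (Fin (k + 1) → ℝ)) × F.ζ × ℕ → MvPolynomial (Fin (k + 1)) ℝ)
    (G : F.Ω → MvPolynomial (Fin (k + 1)) ℝ) (ω : F.Ω) : Prop where
  deg : (G ω).totalDegree ≤ K
  near : NearB F i₁ a w q K P e C₀ G H ω
  err : |F.x ω i₁ - eval (bp F i₁ ω) (G ω)| ≤ 1 / 2 ^ (e + X)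

/-- The height and the line polynomial at the own time. -/
theorem cl_own (k K : ℕ) (C₀ : ℝ) (hC₀ : 1 ≤ C₀) : ∃ B : ℝ, 1 ≤ B ∧ ∀ (J : ℕ)
    (F : Fam (k + 1) J) (i₁ : Fin (k + 1)) (a w q P e X : ℕ)
    (H : ((Fin (k + 1) → ℝ) × (Fin (k + 1) → ℝ)) × F.ζ × ℕ → MvPolynomial (Fin (k + 1)) ℝ)
    (G : F.Ω → MvPolynomial (Fin (k + 1)) ℝ) (ω : F.Ω), w ≤ J → a ≤ q + w →
    Sup F i₁ a w q K P e X C₀ H G ω → |(cl F i₁ a w q K P e H ω).eval (F.tw w ω)| ≤ B := by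
  obtain ⟨C, hC, h⟩ := slice_ext (k + 1) K
  refine ⟨C * C₀ + 1, by nlinarith, ?_⟩
  intro J F i₁ a w q P e X H G ω hw hq hs
  have hep : (0 : ℝ) < 2 ^ e := by positivity
  rw [cl_identity F i₁ a w q K P e (G ω) H ω]
  have e1 : pb F i₁ a w q ω i₁ = F.tw w ω := by
    unfold pb pnt
    rw [if_pos rfl]
  have e2 : nub e i₁ (plb F i₁ a w q ω (G ω)) (Rc F i₁ a w q K P H ω) (F.tw w ω) +
      shp e i₁ (plb F i₁ a w q ω (G ω)) (Rc F i₁ a w q K P H ω) (pb F i₁ a w q ω) =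
      2 ^ e * eval (pb F i₁ a w q ω) (plb F i₁ a w q ω (G ω) - Rc F i₁ a w q K P H ω) := by
    unfold shp
    rw [e1, map_sub]
    ring
  rw [e2]
  have t01 := T1_real F hw ω
  have h1 := h (plb F i₁ a w q ω (G ω) - Rc F i₁ a w q K P H ω) i₁ (F.tw w ω) (C₀ / 2 ^ e)
    ((totalDegree_sub _ _).trans (max_le ((totalDegree_pull_le _ _ _ _ _ _).trans hs.deg)
      (totalDegree_rdz _ _ _))) (by
      unfold Fam.tw
      linarith [t01.1]) (by
      unfold Fam.tw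
      linarith [t01.2]) (fun b hb hb1 => by
        rw [map_sub]
        exact hs.near b hb hb1) (pb F i₁ a w q ω) (fun j _ => by
        have := pb_mem F i₁ hw hq ω j
        rw [abs_le]
        constructor <;> linarith [this.1, this.2]) e1
  refine (abs_add_le _ _).trans (add_le_add ?_ ?_)
  · rw [abs_mul, abs_of_pos hep]
    calc (2 : ℝ) ^ e * _ ≤ 2 ^ e * (C * (C₀ / 2 ^ e)) := mul_le_mul_of_nonneg_left h1 hep.le
      _ = C * C₀ := by field_simp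
  · rw [abs_mul, abs_of_pos hep]
    calc (2 : ℝ) ^ e * _ ≤ 2 ^ e * (1 / 2 ^ (e + X)) :=
          mul_le_mul_of_nonneg_left hs.err hep.le
      _ = 1 / 2 ^ X := by
        rw [pow_add]
        field_simp
      _ ≤ 1 := by
        rw [div_le_one (by positivity)]
        exact one_le_pow₀ (by norm_num)

/-- **Bound of the line polynomial.** -/
theorem cl_bnd (k K : ℕ) (hK : 1 ≤ K) (C₀ : ℝ) (hC₀ : 1 ≤ C₀) : ∃ B : ℝ, 1 ≤ B ∧ ∀ (k₀ J : ℕ)
    (F : Fam (k + 1) J) (i₁ : Fin (k + 1)) (a w q P e X : ℕ)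
    (H : ((Fin (k + 1) → ℝ) × (Fin (k + 1) → ℝ)) × F.ζ × ℕ → MvPolynomial (Fin (k + 1)) ℝ)
    (G : F.Ω → MvPolynomial (Fin (k + 1)) ℝ) (p : F.Ω → ℝ) (ω : F.Ω), w ≤ J → a ≤ q + w →
    (∀ v, 0 < p v → Sup F i₁ a w q K P e X C₀ H G v) → Spt F p w k₀ K ω →
    ∀ s : ℝ, 0 ≤ s → s ≤ 1 → |(cl F i₁ a w q K P e H ω).eval s| ≤ 2 ^ (k₀ * K) * B := by
  obtain ⟨C, hC, h⟩ := cl_own k K C₀ hC₀
  refine ⟨(K + 1) * C, ?_, ?_⟩
  · have h2 : (1 : ℝ) ≤ K + 1 := by
      have : (0 : ℝ) ≤ K := Nat.cast_nonneg K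
      linarith
    nlinarith
  intro k₀ J F i₁ a w q P e X H G p ω hw hq hs hS s hs0 hs1
  refine (hS.bnd hw (natDegree_cl F i₁ a w q K P e hK H ω) (M := C) (fun v hv he => ?_) hs0
    hs1).trans (le_of_eq (by ring))
  rw [← cl_of_slam he]
  exact h J F i₁ a w q P e X H G v hw hq (hs v hv)

/-- **Bound of the difference of the labels.** -/
theorem dif_bnd (k K : ℕ) (C₀ : ℝ) (hC₀ : 1 ≤ C₀) : ∃ B : ℝ, 1 ≤ B ∧ ∀ (k₀ J : ℕ)
    (F : Fam (k + 1) J) (i₁ : Fin (k + 1)) (a w a' w' q P e X : ℕ)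
    (H H' : ((Fin (k + 1) → ℝ) × (Fin (k + 1) → ℝ)) × F.ζ × ℕ → MvPolynomial (Fin (k + 1)) ℝ)
    (G G' : F.Ω → MvPolynomial (Fin (k + 1)) ℝ) (p : F.Ω → ℝ) (ω : F.Ω), w ≤ J → w' ≤ w →
    a ≤ q + w → a' ≤ q + w' → a ≤ a' →
    (∀ v, 0 < p v → Sup F i₁ a w q K P e X C₀ H G v) →
    (∀ v, 0 < p v → Sup F i₁ a' w' q K P e X C₀ H' G' v) →
    (∀ v, 0 < p v → GG F i₁ a' w' q (e + X) C₀ G G' v) → Spt F p w k₀ K ω →
    ∀ b : Fin (k + 1) → ℝ, (∀ i, 0 ≤ b i ∧ b i ≤ 1) →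
      |eval b (dif i₁ a w a' w' e (cw F i₁ a w ω) (dq F i₁ q ω) (cw F i₁ a' w' ω)
        (Rc F i₁ a w q K P H ω) (Rc F i₁ a' w' q K P H' ω))| ≤ 2 ^ (k₀ * K) * B := by
  obtain ⟨C, hC, h⟩ := slice_ext (k + 1) K
  refine ⟨(K + 1) * (C₀ + C₀ + C * C₀), ?_, ?_⟩
  · have h2 : (1 : ℝ) ≤ K + 1 := by
      have : (0 : ℝ) ≤ K := Nat.cast_nonneg K
      linarith
    have h3 : (1 : ℝ) ≤ C₀ + C₀ + C * C₀ := by nlinarith
    nlinarith
  intro k₀ J F i₁ a w a' w' q P e X H H' G G' p ω hw hww hq hq' haa hs hs' hg hS b hb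
  have hep : (0 : ℝ) < 2 ^ e := by positivity
  set D := dif i₁ a w a' w' e (cw F i₁ a w ω) (dq F i₁ q ω) (cw F i₁ a' w' ω)
    (Rc F i₁ a w q K P H ω) (Rc F i₁ a' w' q K P H' ω) with hD
  have hDK : D.totalDegree ≤ K := totalDegree_dif _ _ _ _ _ _ _ _ _ (totalDegree_rdz _ _ _)
    (totalDegree_rdz _ _ _)
  have hb1 : pnt i₁ b 0 (b i₁) = b := by
    funext j
    unfold pnt
    by_cases hj : j = i₁
    · rw [if_pos hj, hj]
    · rw [if_neg hj]
      simp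
  have key := hS.bnd hw (q := lin i₁ b 0 D) ((natDegree_lin_le _ _ _ _).trans hDK)
    (M := C₀ + C₀ + C * C₀) ?_ (hb i₁).1 (hb i₁).2
  · rw [eval_lin, hb1] at key
    exact key.trans (le_of_eq (by ring))
  intro v hv he
  rw [eval_lin]
  have he' := slam_of_slam F hww hw he
  have c1 := ctx_of_slam (i₁ := i₁) (a := a) (q := q) (P := P) (H := H) he
  have c2 := ctx_of_slam (i₁ := i₁) (a := a') (q := q) (P := P) (H := H') he'
  obtain ⟨-, -, -, x4, x5, -, x7, -⟩ := ctx_ext c1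
  obtain ⟨-, -, -, y4, -, -, y7, -⟩ := ctx_ext c2
  have hDv : D = dif i₁ a w a' w' e (cw F i₁ a w v) (dq F i₁ q v) (cw F i₁ a' w' v)
      (Rc F i₁ a w q K P H v) (Rc F i₁ a' w' q K P H' v) := by
    rw [hD, x4, x5, y4, x7, y7]
  rw [hDv, eval_dif]
  set bs := pnt i₁ b 0 (F.tw w v) with hbs
  have hbsi : bs i₁ = F.tw w v := by
    rw [hbs]
    unfold pnt
    rw [if_pos rfl]
  have hbsj : ∀ j, j ≠ i₁ → bs j = b j := by
    intro j hj
    rw [hbs]
    unfold pnt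
    rw [if_neg hj]
    simp
  set tb := toB i₁ w w' (cw F i₁ a w v) (cw F i₁ a' w' v) bs with htb
  set ts := toS i₁ a a' (cw F i₁ a w v) (dq F i₁ q v) (cw F i₁ a' w' v) bs with hts
  have ht : ∀ w, (F.T1 w v : ℝ) / 2 ^ w + F.tw w v / 2 ^ w = F.t v := fun w => by
    unfold Fam.tw
    field_simp
    ring
  have hc1 : ∀ a w, cw F i₁ a w v i₁ = (F.T1 w v : ℝ) / 2 ^ w := fun a w => by
    unfold cw
    rw [if_pos rfl]
  have htbi : tb i₁ = F.tw w' v := by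
    rw [htb]
    unfold toB
    rw [if_pos rfl, hc1, hc1, hbsi]
    have k1 := ht w
    have k2 := ht w'
    have h0 : (0 : ℝ) < 2 ^ w' := by positivity
    have e1 : (2 : ℝ) ^ w' * ((F.T1 w v : ℝ) / 2 ^ w - (F.T1 w' v : ℝ) / 2 ^ w') +
        2 ^ w' / 2 ^ w * F.tw w v = 2 ^ w' * (((F.T1 w v : ℝ) / 2 ^ w + F.tw w v / 2 ^ w) -
          (F.T1 w' v : ℝ) / 2 ^ w') := by
      ring
    rw [e1, k1, ← k2]
    field_simp
    ring
  have htbj : ∀ j, j ≠ i₁ → tb j = b j := by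
    intro j hj
    rw [htb]
    unfold toB
    rw [if_neg hj, hbsj j hj]
  have htr : trs F i₁ a w a' w' q v tb = ts := by
    funext j
    by_cases hj : j = i₁
    · rw [hts]
      unfold trs toS
      rw [if_pos hj, if_pos hj, hbsi]
    · have e1 : trs F i₁ a w a' w' q v tb j = 2 ^ a * (cw F i₁ a' w' v j +
          dq F i₁ q v j * (F.tw w' v / 2 ^ w') + b j / 2 ^ a' - cw F i₁ a w v j -
          dq F i₁ q v j * (F.tw w v / 2 ^ w)) := by
        unfold trs sb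
        rw [if_neg hj, if_neg hj, htbi, htbj j hj]
      have e2 : ts j = 2 ^ a / 2 ^ a' * b j - 2 ^ a * (cw F i₁ a w v j - cw F i₁ a' w' v j -
          dq F i₁ q v j * ((F.T1 w v : ℝ) / 2 ^ w - (F.T1 w' v : ℝ) / 2 ^ w')) := by
        rw [hts]
        unfold toS
        rw [if_neg hj, hc1, hc1, hbsj j hj]
      rw [e1, e2]
      have k1 := ht w
      have k2 := ht w'
      have e3 : (F.T1 w v : ℝ) / 2 ^ w = F.t v - F.tw w v / 2 ^ w := by linarith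
      have e4 : (F.T1 w' v : ℝ) / 2 ^ w' = F.t v - F.tw w' v / 2 ^ w' := by linarith
      rw [e3, e4]
      have h1 : (2 : ℝ) ^ a' ≠ 0 := by positivity
      field_simp
      ring
  have t01 := T1_real F hw v
  have t01' := T1_real F (hww.trans hw) v
  have hcube : ∀ j, 0 ≤ tb j ∧ tb j ≤ 1 := by
    intro j
    by_cases hj : j = i₁
    · rw [hj, htbi]
      unfold Fam.tw
      constructor <;> linarith [t01'.1, t01'.2]
    · rw [htbj j hj]
      exact hb j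
  have b1 := (hs' v hv).near tb hcube htbi
  have b2 := hg v hv tb hcube htbi
  have b3 := h (plb F i₁ a w q v (G v) - Rc F i₁ a w q K P H v) i₁ (F.tw w v) (C₀ / 2 ^ e)
    ((totalDegree_sub _ _).trans (max_le ((totalDegree_pull_le _ _ _ _ _ _).trans (hs v hv).deg)
      (totalDegree_rdz _ _ _))) (by
      unfold Fam.tw
      linarith [t01.1]) (by
      unfold Fam.tw
      linarith [t01.2]) (fun b hb hb1 => by
        rw [map_sub]
        exact (hs v hv).near b hb hb1) ts (fun j hj => by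
        rw [← htr]
        have := trs_le F i₁ hw (hww.trans hw) hq hq' haa v tb htbi (fun j hj => by
          rw [htbj j hj, abs_of_nonneg (hb j).1]
          linarith [(hb j).2]) j hj
        norm_num at this
        exact this) (by
        rw [← htr]
        unfold trs
        rw [if_pos rfl])
  have b4 := eval_trs F i₁ a w a' w' q v (G v) tb htbi
  rw [htr] at b4
  rw [map_sub, ← b4] at b3
  have e1 : 2 ^ e * (eval tb (Rc F i₁ a' w' q K P H' v) - eval ts (Rc F i₁ a w q K P H v)) =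
      2 ^ e * (-(eval tb (plb F i₁ a' w' q v (G' v)) - eval tb (Rc F i₁ a' w' q K P H' v)) +
        (eval tb (plb F i₁ a' w' q v (G' v)) - eval tb (plb F i₁ a' w' q v (G v))) +
        (eval tb (plb F i₁ a' w' q v (G v)) - eval ts (Rc F i₁ a w q K P H v))) := by
    ring
  rw [e1, abs_mul, abs_of_pos hep]
  have e2 : C₀ / 2 ^ (e + X) ≤ C₀ / 2 ^ e := by
    refine div_le_div_of_nonneg_left (by linarith) hep ?_
    exact pow_le_pow_right₀ (by norm_num) (by omega)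
  have e3 := abs_add_le (-(eval tb (plb F i₁ a' w' q v (G' v)) -
      eval tb (Rc F i₁ a' w' q K P H' v)) + (eval tb (plb F i₁ a' w' q v (G' v)) -
      eval tb (plb F i₁ a' w' q v (G v)))) (eval tb (plb F i₁ a' w' q v (G v)) -
      eval ts (Rc F i₁ a w q K P H v))
  have e4 := abs_add_le (-(eval tb (plb F i₁ a' w' q v (G' v)) -
      eval tb (Rc F i₁ a' w' q K P H' v))) (eval tb (plb F i₁ a' w' q v (G' v)) -
      eval tb (plb F i₁ a' w' q v (G v)))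
  rw [abs_neg] at e4
  calc _ ≤ 2 ^ e * (C₀ / 2 ^ e + C₀ / 2 ^ e + C * (C₀ / 2 ^ e)) :=
        mul_le_mul_of_nonneg_left (by linarith) hep.le
    _ = C₀ + C₀ + C * C₀ := by field_simp

end bnd2

end Pool.SLO
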