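import Pool.Agent.H31.M5.H2Xb
import Pool.Agent.H31.M5.H2Xc

/-!
# The chain of contexts (input (H2) of the slope law), assembly

`h2x_step`: one step of the chain, from the box `(a, w)` to the box `(a', w')` with a longer window
and a smaller cell. The numbers `eN` (nestedness of the contexts), `sN` (shape of the own sheet
given the context and the time), `se`, `se'` (lines without separated samples), `rho` (height given
the static record `sig`) are supplied by the other rows.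
-/

set_option autoImplicit false

namespace Pool.SLO

open Finset Real MvPolynomial
open Pool.Agent.H49.Ent Pool.Agent.H32.Dense Pool.STK Pool.KA Pool.KSAT Pool.K2S Pool.PB
open Pool.KAL Pool.SLP Pool.KVA

/-- **(hv)** with an explicit dependence on the bounds. -/
theorem v_ent' (m K : ℕ) : ∃ B : ℝ, 0 ≤ B ∧ ∀ (J : ℕ) (F : Fam m J)
    (i₁ : Fin m) (a w a' w' q P e X : ℕ) (C₀ : ℝ)
    (H H' : ((Fin m → ℝ) × (Fin m → ℝ)) × F.ζ × ℕ → MvPolynomial (Fin m) ℝ) (p : F.Ω → ℝ)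
    (S : Type) (W : F.Ω → S), IsLaw p → 0 ≤ C₀ → 1 ≤ K → w' + X ≤ w → w ≤ J → a' + X ≤ q + w' →
    3 ≤ X → (∀ ω, 0 < p ω → (∀ b : Fin m → ℝ, (∀ i, 0 ≤ b i ∧ b i ≤ 1) →
      |eval b (dif i₁ a w a' w' e (cw F i₁ a w ω) (dq F i₁ q ω) (cw F i₁ a' w' ω)
        (Rc F i₁ a w q K P H ω) (Rc F i₁ a' w' q K P H' ω))| ≤ C₀) ∧
      ∀ s : ℝ, 0 ≤ s → s ≤ 1 → |(cl F i₁ a' w' q K P e H' ω).eval s| ≤ C₀) →
    (∀ ω ω', 0 < p ω → 0 < p ω' → W ω = W ω' → ctx F i₁ a w q P H ω = ctx F i₁ a w q P H ω' ∧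
      ctx F i₁ a' w' q P H' ω = ctx F i₁ a' w' q P H' ω' ∧
      ∀ j, ⌊(2 : ℝ) ^ X * yb F i₁ a' w' ω j⌋ = ⌊(2 : ℝ) ^ X * yb F i₁ a' w' ω' j⌋) →
    CH p (fun ω => fun i : Fin K => ⌊(2 : ℝ) ^ X * (cl F i₁ a w q K P e H ω).coeff (i + 1)⌋) W ≤
      K * Real.log (2 * (B * C₀ + 1) + 1) := by
  obtain ⟨B, hB, h⟩ := vdet m K
  refine ⟨B, hB, ?_⟩
  intro J F i₁ a w a' w' q P e X C₀ H H' p S W hp hC₀ hK hX hw hq hX3 hA hW
  have hXp : (0 : ℝ) < 2 ^ X := by positivity
  have h1 := CH_le_vec hp.nonneg hp.sum_one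
    (fun ω => fun i : Fin K => ⌊(2 : ℝ) ^ X * (cl F i₁ a w q K P e H ω).coeff (i + 1)⌋) W
    (fun _ => B * C₀ + 1) (by
      intro ω ω' hω hω' hWW i
      obtain ⟨w1, w2, w3⟩ := hW ω ω' hω hω' hWW
      obtain ⟨x1, -, -, x4, x5, -, x7, -⟩ := ctx_ext w1
      obtain ⟨-, -, -, y4, -, -, y7, -⟩ := ctx_ext w2
      have hy : ∀ j, |yb F i₁ a' w' ω j - yb F i₁ a' w' ω' j| ≤ 1 / 2 ^ X := by
        intro j
        have e1 := Int.floor_le ((2 : ℝ) ^ X * yb F i₁ a' w' ω j)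
        have e2 := Int.lt_floor_add_one ((2 : ℝ) ^ X * yb F i₁ a' w' ω j)
        have e3 := Int.floor_le ((2 : ℝ) ^ X * yb F i₁ a' w' ω' j)
        have e4 := Int.lt_floor_add_one ((2 : ℝ) ^ X * yb F i₁ a' w' ω' j)
        rw [w3 j] at e1 e2
        have e5 : |(2 : ℝ) ^ X * (yb F i₁ a' w' ω j - yb F i₁ a' w' ω' j)| ≤ 1 := by
          rw [abs_le]
          constructor <;> linarith
        rw [abs_mul, abs_of_pos hXp] at e5
        rw [le_div_iff₀ hXp, mul_comm]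
        exact e5
      have k1 := (hA ω hω).2
      have k2 := (hA ω' hω').2
      unfold cl at k1 k2 ⊢
      rw [← y7 K] at k2
      have h2 := h J F i₁ a w a' w' q e X C₀ (Rc F i₁ a w q K P H ω)
        (Rc F i₁ a' w' q K P H' ω) ω ω' hK (totalDegree_rdz _ _ _) (totalDegree_rdz _ _ _)
        x4 x5 y4 x1 hX hw hq hX3 (hA ω hω).1 k1 k2 hy (i + 1) (by omega) (by omega)
      rw [← x7 K]
      refine floor_near ?_
      rw [← mul_sub, abs_mul, abs_of_pos hXp]
      calc _ ≤ (2 : ℝ) ^ X * (B * C₀ / 2 ^ X) := mul_le_mul_of_nonneg_left h2 hXp.le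
        _ = B * C₀ := by field_simp)
  rw [Ex_const hp.sum_one] at h1
  exact h1

section ent

variable {k J : ℕ}

/-- The digits of the height. -/
noncomputable def nud (F : Fam (k + 1) J) (i₁ : Fin (k + 1)) (a w q K P e X : ℕ)
    (H : ((Fin (k + 1) → ℝ) × (Fin (k + 1) → ℝ)) × F.ζ × ℕ → MvPolynomial (Fin (k + 1)) ℝ)
    (G : F.Ω → MvPolynomial (Fin (k + 1)) ℝ) (ω : F.Ω) : ℤ :=
  ⌊(2 : ℝ) ^ X * nuw F i₁ a w q K P e H G ω⌋

/-- The digits of the position. -/
noncomputable def ytd (F : Fam (k + 1) J) (i₁ : Fin (k + 1)) (a w X : ℕ) (ω : F.Ω) : Fin k → ℤ :=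
  fun j => ⌊(2 : ℝ) ^ X * yt F i₁ a w ω j⌋

/-- The digits of the position and of the line polynomial. -/
noncomputable def ycd (F : Fam (k + 1) J) (i₁ : Fin (k + 1)) (a w q K P e X : ℕ)
    (H : ((Fin (k + 1) → ℝ) × (Fin (k + 1) → ℝ)) × F.ζ × ℕ → MvPolynomial (Fin (k + 1)) ℝ)
    (ω : F.Ω) : (Fin k → ℤ) × (Fin K → ℤ) :=
  (ytd F i₁ a w X ω,
    fun i : Fin K => ⌊(2 : ℝ) ^ X * (cl F i₁ a w q K P e H ω).coeff (i.val + 1)⌋)

theorem floor_eq_diff {x y A : ℝ} (_ : 0 ≤ A) (h : ⌊A * x⌋ = ⌊A * y⌋) : |A * (x - y)| ≤ 1 := by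
  have h1 := Int.floor_le (A * x)
  have h2 := Int.lt_floor_add_one (A * x)
  have h3 := Int.floor_le (A * y)
  have h4 := Int.lt_floor_add_one (A * y)
  rw [h] at h1 h2
  rw [mul_sub, abs_le]
  constructor <;> linarith

/-- The bound of the height. -/
theorem nuw_bnd {F : Fam (k + 1) J} {i₁ : Fin (k + 1)} {a w q K P e X : ℕ} {C₀ : ℝ}
    {H : ((Fin (k + 1) → ℝ) × (Fin (k + 1) → ℝ)) × F.ζ × ℕ → MvPolynomial (Fin (k + 1)) ℝ}
    {G : F.Ω → MvPolynomial (Fin (k + 1)) ℝ} {ω : F.Ω} (hw : w ≤ J)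
    (h : Sup F i₁ a w q K P e X C₀ H G ω) : |nuw F i₁ a w q K P e H G ω| ≤ C₀ := by
  have hep : (0 : ℝ) < 2 ^ e := by positivity
  have t01 := T1_real F hw ω
  unfold nuw nub
  rw [abs_mul, abs_of_pos hep]
  have h1 := h.near (pnt i₁ 0 0 (F.tw w ω)) (fun j => by
    unfold pnt
    split_ifs
    · unfold Fam.tw
      constructor <;> linarith only [t01, t01.1, t01.2]
    · simp) (by
      unfold pnt
      rw [if_pos rfl])
  calc (2 : ℝ) ^ e * _ ≤ 2 ^ e * (C₀ / 2 ^ e) := mul_le_mul_of_nonneg_left h1 hep.le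
    _ = C₀ := by field_simp

/-- The entropy of the digits of the height. -/
theorem nud_ent {F : Fam (k + 1) J} {i₁ : Fin (k + 1)} {a w q K P e X : ℕ} {C₀ : ℝ}
    {H : ((Fin (k + 1) → ℝ) × (Fin (k + 1) → ℝ)) × F.ζ × ℕ → MvPolynomial (Fin (k + 1)) ℝ}
    {G : F.Ω → MvPolynomial (Fin (k + 1)) ℝ} {p : F.Ω → ℝ} (hp : IsLaw p) (hC₀ : 1 ≤ C₀)
    (hw : w ≤ J) (h : ∀ ω, 0 < p ω → Sup F i₁ a w q K P e X C₀ H G ω) {T : Type} (W : F.Ω → T) :
    CH p (nud F i₁ a w q K P e X H G) W ≤ X * Real.log 2 + Real.log (7 * C₀) := by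
  have hXp : (0 : ℝ) < 2 ^ X := by positivity
  have h1 := CH_le_int hp.nonneg hp.sum_one (nud F i₁ a w q K P e X H G) W
    (fun _ => 2 * C₀ * 2 ^ X + 1) (by
      intro ω ω' hω hω' _
      unfold nud
      refine floor_near ?_
      rw [← mul_sub, abs_mul, abs_of_pos hXp]
      have e1 := abs_le.1 (nuw_bnd hw (h ω hω))
      have e2 := abs_le.1 (nuw_bnd hw (h ω' hω'))
      have e3 : |nuw F i₁ a w q K P e H G ω - nuw F i₁ a w q K P e H G ω'| ≤ 2 * C₀ := by
        rw [abs_le]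
        constructor <;> linarith only [e1, e2, e1.1, e1.2, e2.1, e2.2]
      calc (2 : ℝ) ^ X * _ ≤ 2 ^ X * (2 * C₀) := mul_le_mul_of_nonneg_left e3 hXp.le
        _ = 2 * C₀ * 2 ^ X := by ring)
  rw [Ex_const hp.sum_one] at h1
  refine h1.trans ?_
  have h2 : 2 * (2 * C₀ * 2 ^ X + 1) + 1 ≤ 2 ^ X * (7 * C₀) := by
    have : (1 : ℝ) ≤ 2 ^ X := one_le_pow₀ (by norm_num)
    nlinarith only [this, hC₀, hXp]
  refine (Real.log_le_log (by positivity) h2).trans (le_of_eq ?_)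
  rw [Real.log_mul (by positivity) (by positivity), Real.log_pow]

/-- The entropy of the digits of the position in the box. -/
theorem ytd_ent {F : Fam (k + 1) J} (i₁ : Fin (k + 1)) (a w X : ℕ) {p : F.Ω → ℝ} (hp : IsLaw p)
    {T : Type} (W : F.Ω → T) : CH p (ytd F i₁ a w X) W ≤ k * X * Real.log 2 := by
  have h := CH_le_card hp.nonneg hp.sum_one (ytd F i₁ a w X) W
    (fun _ => Fintype.piFinset fun _ => Finset.Ico (0 : ℤ) (2 ^ X)) (fun ω _ => by
      rw [Fintype.mem_piFinset]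
      intro j
      rw [Finset.mem_Ico]
      have h1 := yb_mem F i₁ a w ω (i₁.succAbove j)
      have hX : (0 : ℝ) < 2 ^ X := by positivity
      unfold ytd yt
      constructor
      · rw [Int.floor_nonneg]
        exact mul_nonneg hX.le h1.1
      · rw [Int.floor_lt]
        push_cast
        nlinarith only [h1, hX, h1.2])
  refine h.trans (le_of_eq ?_)
  rw [Ex_const hp.sum_one, Fintype.card_piFinset, Finset.prod_const, Finset.card_univ,
    Fintype.card_fin, Int.card_Ico]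
  have e : (((2 : ℤ) ^ X - 0).toNat : ℕ) = 2 ^ X := by
    rw [sub_zero]
    have : ((2 : ℤ) ^ X) = ((2 ^ X : ℕ) : ℤ) := by push_cast; rfl
    rw [this, Int.toNat_natCast]
  rw [e]
  push_cast
  rw [← pow_mul, Real.log_pow]
  push_cast
  ring

/-- **The position in the coarse box** is a function of the contexts and of the position in the
fine box. -/
theorem ytd_fine {F : Fam (k + 1) J} {i₁ : Fin (k + 1)} {a w a' w' q P P' X : ℕ}
    {H H' : ((Fin (k + 1) → ℝ) × (Fin (k + 1) → ℝ)) × F.ζ × ℕ → MvPolynomial (Fin (k + 1)) ℝ}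
    {p : F.Ω → ℝ} (hp : IsLaw p) (hww : w' ≤ w) (hw : w ≤ J) (haa : a ≤ a')
    (hq' : a' + X ≤ q + w') {T : Type} (W : F.Ω → T)
    (hW : ∀ ω ω', 0 < p ω → 0 < p ω' → W ω = W ω' → ctx F i₁ a w q P H ω = ctx F i₁ a w q P H ω' ∧
      ctx F i₁ a' w' q P' H' ω = ctx F i₁ a' w' q P' H' ω' ∧
      ytd F i₁ a' w' X ω = ytd F i₁ a' w' X ω') :
    CH p (ytd F i₁ a w X) W ≤ k * Real.log 7 := by
  have hXp : (0 : ℝ) < 2 ^ X := by positivity
  have h1 := CH_le_vec hp.nonneg hp.sum_one (ytd F i₁ a w X) W (fun _ => 3) (by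
    intro ω ω' hω hω' hWW j
    obtain ⟨c1, c2, c3⟩ := hW ω ω' hω hω' hWW
    obtain ⟨x1, -, x3, x4, -⟩ := ctx_ext c1
    obtain ⟨y1, -, -, y4, -⟩ := ctx_ext c2
    set i := i₁.succAbove j with hi
    have hne : i ≠ i₁ := Fin.succAbove_ne i₁ j
    have d1 : |(2 : ℝ) ^ X * (yb F i₁ a' w' ω i - yb F i₁ a' w' ω' i)| ≤ 1 :=
      floor_eq_diff hXp.le (congrFun c3 j)
    have d2 : |(2 : ℝ) ^ q * (F.d ω i - F.d ω' i)| ≤ 1 := by
      have := congrFun x3 i
      unfold cld at this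
      rw [if_neg hne, if_neg hne] at this
      exact floor_eq_diff (by positivity) this
    have e1 : ∀ ω₀ : F.Ω, yb F i₁ a w ω₀ i = 2 ^ a * (F.x1 w ω₀ i - cw F i₁ a w ω₀ i) := by
      intro ω₀
      unfold yb
      rw [if_neg hne]
    have e2 : ∀ ω₀ : F.Ω, F.x1 w' ω₀ i = cw F i₁ a' w' ω₀ i + yb F i₁ a' w' ω₀ i / 2 ^ a' := by
      intro ω₀
      unfold yb
      rw [if_neg hne]
      field_simp
      ring
    have e3 : yb F i₁ a w ω i - yb F i₁ a w ω' i = 2 ^ a / 2 ^ a' *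
        (yb F i₁ a' w' ω i - yb F i₁ a' w' ω' i) + 2 ^ a *
        (((F.T1 w ω : ℝ) / 2 ^ w - (F.T1 w' ω : ℝ) / 2 ^ w') * (F.d ω i - F.d ω' i)) := by
      rw [e1, e1, x1_sub F w w' ω i, x1_sub F w w' ω' i, e2, e2, ← x1, ← y1, ← x4, ← y4]
      ring
    have hsh : 0 ≤ (F.T1 w ω : ℝ) / 2 ^ w - (F.T1 w' ω : ℝ) / 2 ^ w' ∧
        (F.T1 w ω : ℝ) / 2 ^ w - (F.T1 w' ω : ℝ) / 2 ^ w' ≤ 1 / 2 ^ w' := by
      have hw0 : (0 : ℝ) < 2 ^ w' := by positivity
      have h := tp_mem F hww hw ω (le_refl (0 : ℝ)) zero_le_one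
      unfold tp at h
      rw [mul_zero, add_zero] at h
      constructor
      · nlinarith only [h, hw0, h.1]
      · rw [le_div_iff₀ hw0]
        linarith only [h, h.2]
    unfold ytd yt
    refine (floor_near (r := 2) ?_).trans (by norm_num)
    rw [← mul_sub, ← hi, e3, mul_add]
    refine (abs_add_le _ _).trans ?_
    have f1 : |(2 : ℝ) ^ X * (2 ^ a / 2 ^ a' * (yb F i₁ a' w' ω i - yb F i₁ a' w' ω' i))| ≤ 1 := by
      have : (2 : ℝ) ^ X * (2 ^ a / 2 ^ a' * (yb F i₁ a' w' ω i - yb F i₁ a' w' ω' i)) =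
          2 ^ a / 2 ^ a' * ((2 : ℝ) ^ X * (yb F i₁ a' w' ω i - yb F i₁ a' w' ω' i)) := by ring
      rw [this, abs_mul]
      have h3 : |(2 : ℝ) ^ a / 2 ^ a'| ≤ 1 := by
        rw [abs_of_nonneg (by positivity), div_le_one (by positivity)]
        exact pow_le_pow_right₀ (by norm_num) haa
      calc _ ≤ (1 : ℝ) * 1 := mul_le_mul h3 d1 (abs_nonneg _) zero_le_one
        _ = 1 := one_mul _
    have f2 : |(2 : ℝ) ^ X * (2 ^ a *
        (((F.T1 w ω : ℝ) / 2 ^ w - (F.T1 w' ω : ℝ) / 2 ^ w') * (F.d ω i - F.d ω' i)))| ≤ 1 := by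
      have e5 : (2 : ℝ) ^ X * (2 ^ a *
          (((F.T1 w ω : ℝ) / 2 ^ w - (F.T1 w' ω : ℝ) / 2 ^ w') * (F.d ω i - F.d ω' i))) =
          (2 ^ X * 2 ^ a / 2 ^ q * ((F.T1 w ω : ℝ) / 2 ^ w - (F.T1 w' ω : ℝ) / 2 ^ w')) *
            (2 ^ q * (F.d ω i - F.d ω' i)) := by
        field_simp
      rw [e5, abs_mul]
      have h4 : |(2 : ℝ) ^ X * 2 ^ a / 2 ^ q *
          ((F.T1 w ω : ℝ) / 2 ^ w - (F.T1 w' ω : ℝ) / 2 ^ w')| ≤ 1 := by
        rw [abs_of_nonneg (mul_nonneg (by positivity) hsh.1)]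
        calc _ ≤ (2 : ℝ) ^ X * 2 ^ a / 2 ^ q * (1 / 2 ^ w') :=
              mul_le_mul_of_nonneg_left hsh.2 (by positivity)
          _ = 2 ^ (X + a) / 2 ^ (q + w') := by
              rw [pow_add, pow_add]
              field_simp
          _ ≤ 1 := by
              rw [div_le_one (by positivity)]
              exact pow_le_pow_right₀ (by norm_num) (by omega)
      calc _ ≤ (1 : ℝ) * 1 := mul_le_mul h4 d2 (abs_nonneg _) zero_le_one
        _ = 1 := one_mul _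
    linarith only [f1, f2])
  rw [Ex_const hp.sum_one] at h1
  have e : (2 : ℝ) * 3 + 1 = 7 := by norm_num
  rw [e] at h1
  exact h1

/-- **Recentring**, entropy form, both directions. -/
theorem recentre_ent (k K : ℕ) (C₀ : ℝ) (hC₀ : 1 ≤ C₀) : ∃ B : ℝ, 0 ≤ B ∧ ∀ (J : ℕ)
    (F : Fam (k + 1) J) (i₁ : Fin (k + 1)) (a w a' w' q P P' e X : ℕ)
    (H H' : ((Fin (k + 1) → ℝ) × (Fin (k + 1) → ℝ)) × F.ζ × ℕ → MvPolynomial (Fin (k + 1)) ℝ)
    (G G' : F.Ω → MvPolynomial (Fin (k + 1)) ℝ) (p : F.Ω → ℝ) (S : Type) (V : F.Ω → S),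
    IsLaw p → w ≤ J → w' ≤ J → a ≤ q + w → a' ≤ q + w' → a ≤ a' →
    (∀ ω, 0 < p ω → (G ω).totalDegree ≤ K ∧ GG F i₁ a' w' q (e + X) C₀ G G' ω) →
    (∀ ω ω', 0 < p ω → 0 < p ω' → V ω = V ω' → ctx F i₁ a w q P H ω = ctx F i₁ a w q P H ω' ∧
      ctx F i₁ a' w' q P' H' ω = ctx F i₁ a' w' q P' H' ω' ∧ F.W ω = F.W ω' ∧
      shd F i₁ a w q K P e X H G ω = shd F i₁ a w q K P e X H G ω') →
    CH p (nud F i₁ a' w' q K P' e X H' G') (fun ω => (nud F i₁ a w q K P e X H G ω, V ω)) ≤ B ∧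
    CH p (nud F i₁ a w q K P e X H G) (fun ω => (nud F i₁ a' w' q K P' e X H' G' ω, V ω)) ≤ B := by
  obtain ⟨B, hB, h⟩ := recentre k K C₀ hC₀
  refine ⟨Real.log (2 * (B + 2) + 1), Real.log_nonneg (by linarith only [hB]), ?_⟩
  intro J F i₁ a w a' w' q P P' e X H H' G G' p S V hp hw hw' hq hq' haa hs hV
  have hXp : (0 : ℝ) < 2 ^ X := by positivity
  have main : ∀ ω ω', 0 < p ω → 0 < p ω' → V ω = V ω' →
      |2 ^ X * (nuw F i₁ a' w' q K P' e H' G' ω - nuw F i₁ a' w' q K P' e H' G' ω') -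
        2 ^ X * (nuw F i₁ a w q K P e H G ω - nuw F i₁ a w q K P e H G ω')| ≤ B := by
    intro ω ω' hω hω' hv
    obtain ⟨v1, v2, v3, v4⟩ := hV ω ω' hω hω' hv
    have h1 := h J F i₁ a w a' w' q P P' e X H H' G G' ω ω' hw hw' hq hq' haa (hs ω hω).1
      (hs ω' hω').1 (hs ω hω).2 (hs ω' hω').2 v1 v2 v3 (fun al => by
        have e1 := floor_eq_diff hXp.le (congrFun v4 al)
        rw [abs_mul, abs_of_pos hXp] at e1
        rw [le_div_iff₀ hXp, mul_comm]
        exact e1)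
    rw [← mul_sub, abs_mul, abs_of_pos hXp]
    calc (2 : ℝ) ^ X * _ ≤ 2 ^ X * (B / 2 ^ X) := mul_le_mul_of_nonneg_left h1 hXp.le
      _ = B := by field_simp
  constructor
  · have h1 := CH_le_int hp.nonneg hp.sum_one (nud F i₁ a' w' q K P' e X H' G')
      (fun ω => (nud F i₁ a w q K P e X H G ω, V ω)) (fun _ => B + 2) (by
        intro ω ω' hω hω' hh
        obtain ⟨g1, g2⟩ := Prod.ext_iff.1 hh
        have m1 := main ω ω' hω hω' g2
        have m2 := floor_eq_diff hXp.le g1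
        unfold nud
        refine (floor_near (r := B + 1) ?_).trans (by linarith only)
        rw [← mul_sub]
        rw [abs_le] at m1 m2 ⊢
        constructor <;> linarith only [m1, m2, m1.1, m1.2, m2.1, m2.2])
    rw [Ex_const hp.sum_one] at h1
    exact h1
  · have h1 := CH_le_int hp.nonneg hp.sum_one (nud F i₁ a w q K P e X H G)
      (fun ω => (nud F i₁ a' w' q K P' e X H' G' ω, V ω)) (fun _ => B + 2) (by
        intro ω ω' hω hω' hh
        obtain ⟨g1, g2⟩ := Prod.ext_iff.1 hh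
        have m1 := main ω ω' hω hω' g2
        have m2 := floor_eq_diff hXp.le g1
        unfold nud
        refine (floor_near (r := B + 1) ?_).trans (by linarith only)
        rw [← mul_sub]
        rw [abs_le] at m1 m2 ⊢
        constructor <;> linarith only [m1, m2, m1.1, m1.2, m2.1, m2.2])
    rw [Ex_const hp.sum_one] at h1
    exact h1

end ent

section chain

variable {k J : ℕ}

open Classical in
theorem Pe_not_and {Ω : Type} [Fintype Ω] {p : Ω → ℝ} (hp : IsLaw p) (A B : Ω → Prop) :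
    Pe p (fun ω => ¬ (A ω ∧ B ω)) ≤ Pe p (fun ω => ¬ A ω) + Pe p (fun ω => ¬ B ω) := by
  rw [Pe_eq, Pe_eq, Pe_eq, ← Finset.sum_add_distrib]
  refine Finset.sum_le_sum fun ω _ => ?_
  have h0 := hp.nonneg ω
  by_cases hA : A ω
  · by_cases hB : B ω
    · simp [hA, hB]
    · simp [hA, hB]
  · by_cases hB : B ω
    · simp [hA, hB]
    · simp only [hA, hB, false_and, not_false_eq_true, if_true]
      linarith

/-- **(H2), one step of the chain of contexts.** -/
theorem h2x_step (k K : ℕ) (hK : 1 ≤ K) (C₀ : ℝ) (hC₀ : 1 ≤ C₀) : ∃ B : ℝ, 0 ≤ B ∧ ∀ (J : ℕ)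
    (F : Fam (k + 1) J) (i₁ : Fin (k + 1)) (q P e X k₀ a w a' w' : ℕ)
    (H H' : ((Fin (k + 1) → ℝ) × (Fin (k + 1) → ℝ)) × F.ζ × ℕ → MvPolynomial (Fin (k + 1)) ℝ)
    (G G' : F.Ω → MvPolynomial (Fin (k + 1)) ℝ) (p : F.Ω → ℝ) (eN sN se se' rho : ℝ)
    (Sg : Type) (sig : F.Ω → Sg), IsLaw p → 3 ≤ X → w ≤ J → w' + X ≤ w → a ≤ a' →
    a + X ≤ q + w → a' + X ≤ q + w' →
    (∀ ω, 0 < p ω → Sup F i₁ a w q K P e X C₀ H G ω) →
    (∀ ω, 0 < p ω → Sup F i₁ a' w' q K P e X C₀ H' G' ω) →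
    (∀ ω, 0 < p ω → GG F i₁ a' w' q (e + X) C₀ G G' ω) →
    CH p (ctx F i₁ a w q P H) (fun ω => (ctx F i₁ a' w' q P H' ω, F.W ω)) ≤ eN →
    CH p (shd F i₁ a w q K P e X H G) (fun ω => (ctx F i₁ a w q P H ω, F.W ω)) ≤ sN →
    Pe p (fun ω => ¬ Spt F p w k₀ K ω) ≤ se → Pe p (fun ω => ¬ Spt F p w' k₀ K ω) ≤ se' →
    Det p sig (fun ω => (ctx F i₁ a' w' q P H' ω, F.W ω)) →
    CH p (nud F i₁ a' w' q K P e X H' G') sig ≤ rho →
    MI p (nud F i₁ a w q K P e X H G) (ycd F i₁ a w q K P e X H)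
      (fun ω => (ctx F i₁ a w q P H ω, F.W ω)) ≤
    CH p (nud F i₁ a w q K P e X H G) (fun ω => (ctx F i₁ a w q P H ω, F.W ω)) -
      CH p (nud F i₁ a' w' q K P e X H' G') (fun ω => (ctx F i₁ a' w' q P H' ω, F.W ω)) +
      (k * X * Real.log 2 - CH p (ytd F i₁ a' w' X) sig) +
      (2 * eN + 2 * sN + rho + B + K * K * k₀ * Real.log 2 +
        (se + se') * (X * Real.log 2 + B)) := by
  obtain ⟨B₁, hB₁, hcl⟩ := cl_bnd k K hK C₀ hC₀
  obtain ⟨B₂, hB₂, hdif⟩ := dif_bnd k K C₀ hC₀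
  obtain ⟨B₃, hB₃, hv⟩ := v_ent' (k + 1) K
  obtain ⟨B₄, hB₄, hre⟩ := recentre_ent k K C₀ hC₀
  have hl7 : 0 ≤ Real.log (7 * C₀) := Real.log_nonneg (by linarith only [hC₀])
  have hlog7 : 0 ≤ Real.log 7 := Real.log_nonneg (by norm_num)
  have hlog2 : 0 ≤ Real.log 2 := Real.log_nonneg (by norm_num)
  set M := max B₁ B₂ with hM
  have hM1 : 1 ≤ M := hB₁.trans (le_max_left _ _)
  have hlM : 0 ≤ Real.log (2 * (B₃ * M + 1) + 1) := Real.log_nonneg (by
    have : 0 ≤ B₃ * M := by positivity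
    linarith only [this])
  set E₃ : ℝ := Real.log 2 + (k * Real.log 7 + K * Real.log (2 * (B₃ * M + 1) + 1)) with hE₃
  have hE₃0 : 0 ≤ E₃ := by positivity
  refine ⟨Real.log (7 * C₀) + (2 * B₄ + E₃), by positivity, ?_⟩
  intro J F i₁ q P e X k₀ a w a' w' H H' G G' p eN sN se se' rho Sg sig hp hX hw hww haa hq hq'
    hS hS' hG hN hs hse hse' hsig hrho
  have hp0 := hp.nonneg
  have hw' : w' ≤ J := by omega
  have hqa : a ≤ q + w := by omega
  have hqa' : a' ≤ q + w' := by omega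
  have main := Pool.M5.h2s hp0 (ctx F i₁ a w q P H) (ctx F i₁ a' w' q P H')
    (nud F i₁ a w q K P e X H G) (nud F i₁ a' w' q K P e X H' G') F.W (ytd F i₁ a' w' X)
    (ycd F i₁ a w q K P e X H) (e1 := eN) (e2 := sN + B₄)
    (e3 := E₃ + K * K * k₀ * Real.log 2 + (se + se') * (X * Real.log 2 + Real.log (7 * C₀)))
    (e4 := (k * X * Real.log 2 - CH p (ytd F i₁ a' w' X) sig) + (eN + (rho + (sN + B₄))))
    hN ?_ ?_ ?_
  · refine main.trans ?_
    have s1 : 0 ≤ se := (Pe_nonneg hp _).trans hse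
    have s2 : 0 ≤ se' := (Pe_nonneg hp _).trans hse'
    have s3 : (se + se') * (X * Real.log 2 + Real.log (7 * C₀)) ≤
        (se + se') * (X * Real.log 2 + (Real.log (7 * C₀) + (2 * B₄ + E₃))) := by
      refine mul_le_mul_of_nonneg_left ?_ (by linarith only [s1, s2])
      linarith only [hB₄, hE₃0]
    linarith only [hl7, s3]
  · -- recentring
    have r := (hre J F i₁ a w a' w' q P P e X H H' G G' p _
      (fun ω => (shd F i₁ a w q K P e X H G ω, (ctx F i₁ a' w' q P H' ω,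
        (ctx F i₁ a w q P H ω, F.W ω)))) hp hw hw' hqa hqa' haa
      (fun ω hω => ⟨(hS ω hω).deg, hG ω hω⟩) (by
        intro ω ω' _ _ h
        simp only [Prod.mk.injEq] at h
        exact ⟨h.2.2.1, h.2.1, h.2.2.2, h.1⟩)).1
    have c1 := CH_le_add hp0 (nud F i₁ a' w' q K P e X H' G') (shd F i₁ a w q K P e X H G)
      (fun ω => (nud F i₁ a w q K P e X H G ω, (ctx F i₁ a' w' q P H' ω,
        (ctx F i₁ a w q P H ω, F.W ω))))
    have c2 : CH p (shd F i₁ a w q K P e X H G)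
        (fun ω => (nud F i₁ a w q K P e X H G ω, (ctx F i₁ a' w' q P H' ω,
        (ctx F i₁ a w q P H ω, F.W ω)))) ≤ sN := by
      refine (CH_mono_cond hp0 ?_).trans hs
      intro ω ω' _ _ h
      simp only [Prod.mk.injEq] at h ⊢
      exact ⟨h.2.2.1, h.2.2.2⟩
    have c3 : CH p (nud F i₁ a' w' q K P e X H' G')
        (fun ω => (shd F i₁ a w q K P e X H G ω, (nud F i₁ a w q K P e X H G ω,
          (ctx F i₁ a' w' q P H' ω, (ctx F i₁ a w q P H ω, F.W ω))))) =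
        CH p (nud F i₁ a' w' q K P e X H' G')
        (fun ω => (nud F i₁ a w q K P e X H G ω, (shd F i₁ a w q K P e X H G ω,
          (ctx F i₁ a' w' q P H' ω, (ctx F i₁ a w q P H ω, F.W ω))))) := by
      refine CH_congr hp0 ?_ ?_ ?_ ?_ <;> intro ω ω' _ _ h <;> simp only [Prod.mk.injEq] at h ⊢
      · exact h.1
      · exact h.1
      · exact ⟨h.2.1, h.1, h.2.2⟩
      · exact ⟨h.2.1, h.1, h.2.2⟩
    linarith only [r, c1, c2, c3]
  · -- the data of the lines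
    have hmb := Pool.M5.mi_bad hp (nud F i₁ a w q K P e X H G) (ycd F i₁ a w q K P e X H)
      (fun ω => (ytd F i₁ a' w' X ω, ctx F i₁ a' w' q P H' ω))
      (fun ω => (ctx F i₁ a w q P H ω, F.W ω))
      (fun ω => Spt F p w k₀ K ω ∧ Spt F p w' k₀ K ω)
      (B := k * Real.log 7 + K * (K * k₀ * Real.log 2 + Real.log (2 * (B₃ * M + 1) + 1)))
      (E := X * Real.log 2 + Real.log (7 * C₀)) ?_ ?_ (by positivity)
    · have h1 := Pe_not_and hp (fun ω => Spt F p w k₀ K ω) (fun ω => Spt F p w' k₀ K ω)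
      have h4 : 0 ≤ X * Real.log 2 + Real.log (7 * C₀) := by positivity
      have h5 := mul_le_mul_of_nonneg_right (h1.trans (add_le_add hse hse')) h4
      rw [hE₃]
      linarith only [hmb, h5]
    · -- good lines
      intro ω₀ hω₀ hg₀
      set g : F.Ω → Prop := fun ω => Spt F p w k₀ K ω ∧ Spt F p w' k₀ K ω with hg
      have hlaw : IsLaw (cond p g True) := by
        have h1 : g ω₀ = True := eq_true hg₀
        have h2 := law_pos hp0 g hω₀
        rw [h1] at h2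
        exact isLaw_cond hp h2
      have hsup : ∀ ω, 0 < cond p g True ω → 0 < p ω ∧ g ω := by
        intro ω hω
        have h1 := (cond_pos_iff hp0 g True ω).1 hω
        exact ⟨h1.1, by rw [h1.2]; trivial⟩
      have ch : CH (cond p g True) (ycd F i₁ a w q K P e X H)
          (fun ω => ((ytd F i₁ a' w' X ω, ctx F i₁ a' w' q P H' ω),
            (ctx F i₁ a w q P H ω, F.W ω))) ≤
          CH (cond p g True) (fun ω => fun i : Fin K => ⌊(2 : ℝ) ^ X *
            (cl F i₁ a w q K P e H ω).coeff (i.val + 1)⌋)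
          (fun ω => ((ytd F i₁ a' w' X ω, ctx F i₁ a' w' q P H' ω),
            (ctx F i₁ a w q P H ω, F.W ω))) +
          CH (cond p g True) (ytd F i₁ a w X)
          (fun ω => ((ytd F i₁ a' w' X ω, ctx F i₁ a' w' q P H' ω),
            (ctx F i₁ a w q P H ω, F.W ω))) := by
        have c1 := CH_chain hlaw.nonneg (ytd F i₁ a w X)
          (fun ω => fun i : Fin K => ⌊(2 : ℝ) ^ X *
            (cl F i₁ a w q K P e H ω).coeff (i.val + 1)⌋)
          (fun ω => ((ytd F i₁ a' w' X ω, ctx F i₁ a' w' q P H' ω),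
            (ctx F i₁ a w q P H ω, F.W ω)))
        have c2 : CH (cond p g True) (ytd F i₁ a w X)
            (fun ω => ((fun i : Fin K => ⌊(2 : ℝ) ^ X *
              (cl F i₁ a w q K P e H ω).coeff (i.val + 1)⌋),
              ((ytd F i₁ a' w' X ω, ctx F i₁ a' w' q P H' ω),
              (ctx F i₁ a w q P H ω, F.W ω)))) ≤
            CH (cond p g True) (ytd F i₁ a w X)
            (fun ω => ((ytd F i₁ a' w' X ω, ctx F i₁ a' w' q P H' ω),
              (ctx F i₁ a w q P H ω, F.W ω))) :=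
          CH_mono_cond hlaw.nonneg fun _ _ _ _ h => (Prod.ext_iff.1 h).2
        unfold ycd
        linarith only [c1, c2]
      have y1 := ytd_fine (P := P) (P' := P) (H := H) (H' := H') (q := q) (i₁ := i₁)
        (a := a) (w := w) (a' := a') (w' := w') (X := X) hlaw (by omega) hw haa hq'
        (fun ω => ((ytd F i₁ a' w' X ω, ctx F i₁ a' w' q P H' ω),
            (ctx F i₁ a w q P H ω, F.W ω))) (by
          intro ω ω' _ _ h
          simp only [Prod.mk.injEq] at h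
          exact ⟨h.2.1, h.1.2, h.1.1⟩)
      have v1 := hv J F i₁ a w a' w' q P e X (2 ^ (k₀ * K) * M) H H'
        (cond p g True) _ (fun ω => ((ytd F i₁ a' w' X ω, ctx F i₁ a' w' q P H' ω),
            (ctx F i₁ a w q P H ω, F.W ω))) hlaw (by positivity) hK hww hw hq' hX (by
          intro ω hω
          obtain ⟨hω1, hω2, hω3⟩ := hsup ω hω
          refine ⟨fun b hb => ?_, fun s hs0 hs1 => ?_⟩
          · refine (hdif k₀ J F i₁ a w a' w' q P e X H H' G G' p ω hw (by omega)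
              hqa hqa' haa hS hS' hG hω2 b hb).trans ?_
            exact mul_le_mul_of_nonneg_left (le_max_right _ _) (by positivity)
          · refine (hcl k₀ J F i₁ a' w' q P e X H' G' p ω hw' hqa' hS' hω3 s hs0 hs1).trans ?_
            exact mul_le_mul_of_nonneg_left (le_max_left _ _) (by positivity)) (by
          intro ω ω' _ _ h
          simp only [Prod.mk.injEq] at h
          obtain ⟨⟨h1, h2⟩, h3, h4⟩ := h
          refine ⟨h3, h2, fun i => ?_⟩
          refine Fin.succAboveCases (α := fun i => ⌊(2 : ℝ) ^ X * yb F i₁ a' w' ω i⌋ =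
            ⌊(2 : ℝ) ^ X * yb F i₁ a' w' ω' i⌋) i₁ ?_ (fun i => ?_) i
          · unfold yb
            rw [if_pos rfl, if_pos rfl]
          · exact congrFun h1 i)
      have v2 : Real.log (2 * (B₃ * (2 ^ (k₀ * K) * M) + 1) + 1) ≤
          K * k₀ * Real.log 2 + Real.log (2 * (B₃ * M + 1) + 1) := by
        have h1 : (1 : ℝ) ≤ 2 ^ (k₀ * K) := one_le_pow₀ (by norm_num)
        have h2 : 2 * (B₃ * (2 ^ (k₀ * K) * M) + 1) + 1 ≤
            2 ^ (k₀ * K) * (2 * (B₃ * M + 1) + 1) := by nlinarith only [h1]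
        have h3 : 0 ≤ B₃ * (2 ^ (k₀ * K) * M) := by positivity
        refine (Real.log_le_log (by linarith only [h3]) h2).trans (le_of_eq ?_)
        rw [Real.log_mul (by positivity) (by positivity), Real.log_pow]
        push_cast
        ring
      have v3 : (K : ℝ) * Real.log (2 * (B₃ * (2 ^ (k₀ * K) * M) + 1) + 1) ≤
          K * (K * k₀ * Real.log 2 + Real.log (2 * (B₃ * M + 1) + 1)) :=
        mul_le_mul_of_nonneg_left v2 (Nat.cast_nonneg K)
      linarith only [ch, y1, v1, v3]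
    · -- bad lines
      intro ω₀ hω₀ hg₀
      set g : F.Ω → Prop := fun ω => Spt F p w k₀ K ω ∧ Spt F p w' k₀ K ω with hg
      have hlaw : IsLaw (cond p g False) := by
        have hpos : 0 < law p g False := by
          have : g ω₀ = False := eq_false hg₀
          rw [← this]
          exact law_pos hp0 g hω₀
        exact ⟨fun v => cond_nonneg hp0 g _ v, sum_cond p g hpos.ne'⟩
      exact nud_ent hlaw hC₀ hw (fun ω hω => hS ω ((cond_pos_iff hp0 g False ω).1 hω).1) _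
  · -- the position in the next box
    have h3 := Pool.M5.mi_full hp0 (fun ω => (ctx F i₁ a' w' q P H' ω,
        (ctx F i₁ a w q P H ω, F.W ω)))
      (nud F i₁ a w q K P e X H G) (ytd F i₁ a' w' X)
      (ytd F i₁ a' w' X) sig (D := k * X * Real.log 2)
      (d := k * X * Real.log 2 - CH p (ytd F i₁ a' w' X) sig)
      (e := eN + (rho + (sN + B₄))) ?_ ?_ (by linarith only) ?_
    · exact h3
    · intro ω ω' _ _ h
      exact (Prod.ext_iff.1 h).1
    · exact ytd_ent i₁ _ _ X hp _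
    · have c1 : CH p (fun ω => (nud F i₁ a w q K P e X H G ω,
          (ctx F i₁ a' w' q P H' ω, (ctx F i₁ a w q P H ω, F.W ω)))) sig ≤
          CH p (fun ω => (nud F i₁ a w q K P e X H G ω, ctx F i₁ a w q P H ω)) sig := by
        refine CH_mono_left hp0 ?_
        intro ω ω' hω hω' h
        obtain ⟨h1, h2⟩ := Prod.ext_iff.1 h
        obtain ⟨h3, h4⟩ := Prod.ext_iff.1 h1
        obtain ⟨h5, h6⟩ := Prod.ext_iff.1 (hsig ω ω' hω hω' h2)
        exact Prod.ext h3 (Prod.ext h5 (Prod.ext h4 h6))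
      have c2 := CH_chain hp0 (nud F i₁ a w q K P e X H G) (ctx F i₁ a w q P H) sig
      have c3 : CH p (ctx F i₁ a w q P H) sig ≤ eN := (CH_mono_cond hp0 hsig).trans hN
      have c4 := CH_le_add hp0 (nud F i₁ a w q K P e X H G) (nud F i₁ a' w' q K P e X H' G')
        (fun ω => (ctx F i₁ a w q P H ω, sig ω))
      have c5 : CH p (nud F i₁ a' w' q K P e X H' G')
          (fun ω => (ctx F i₁ a w q P H ω, sig ω)) ≤ rho :=
        (CH_mono_cond hp0 fun _ _ _ _ h => (Prod.ext_iff.1 h).2).trans hrho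
      have c6 := CH_le_add hp0 (nud F i₁ a w q K P e X H G) (shd F i₁ a w q K P e X H G)
        (fun ω => (nud F i₁ a' w' q K P e X H' G' ω, (ctx F i₁ a w q P H ω, sig ω)))
      have c7 : CH p (shd F i₁ a w q K P e X H G)
          (fun ω => (nud F i₁ a' w' q K P e X H' G' ω, (ctx F i₁ a w q P H ω, sig ω))) ≤
          sN := by
        refine (CH_mono_cond hp0 ?_).trans hs
        intro ω ω' hω hω' h
        obtain ⟨h1, h2⟩ := Prod.ext_iff.1 h
        obtain ⟨h3, h4⟩ := Prod.ext_iff.1 h2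
        exact Prod.ext h3 (Prod.ext_iff.1 (hsig ω ω' hω hω' h4)).2
      have r := (hre J F i₁ a w a' w' q P P e X H H' G G' p _
        (fun ω => (shd F i₁ a w q K P e X H G ω, (ctx F i₁ a w q P H ω, sig ω))) hp hw hw'
        hqa hqa' haa (fun ω hω => ⟨(hS ω hω).deg, hG ω hω⟩) (by
          intro ω ω' hω hω' h
          obtain ⟨h1, h2⟩ := Prod.ext_iff.1 h
          obtain ⟨h3, h4⟩ := Prod.ext_iff.1 h2
          obtain ⟨h5, h6⟩ := Prod.ext_iff.1 (hsig ω ω' hω hω' h4)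
          exact ⟨h3, h5, h6, h1⟩)).2
      have c8 : CH p (nud F i₁ a w q K P e X H G)
          (fun ω => (shd F i₁ a w q K P e X H G ω, (nud F i₁ a' w' q K P e X H' G' ω,
            (ctx F i₁ a w q P H ω, sig ω)))) =
          CH p (nud F i₁ a w q K P e X H G)
          (fun ω => (nud F i₁ a' w' q K P e X H' G' ω, (shd F i₁ a w q K P e X H G ω,
            (ctx F i₁ a w q P H ω, sig ω)))) := by
        refine CH_congr hp0 ?_ ?_ ?_ ?_ <;> intro ω ω' _ _ h <;>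
          simp only [Prod.mk.injEq] at h ⊢
        · exact h.1
        · exact h.1
        · exact ⟨h.2.1, h.1, h.2.2⟩
        · exact ⟨h.2.1, h.1, h.2.2⟩
      linarith only [c1, c2, c3, c4, c5, c6, c7, r, c8]

end chain

end Pool.SLO
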