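import Pool.Agent.H31.M5.H2
import Pool.Agent.H56.KAF.Defs

/-!
# A label which is nearly a function of few times has small entropy

`B` is an integer vector, a function of the line `l`; off a small event it is near to a function of
the times `x`, which are nearly independent of the line.
-/

set_option autoImplicit false

namespace Pool.M5

open Finset Real
open Pool.Agent.H49.Ent Pool.Agent.H32.Dense Pool.STK Pool.KVA Pool.KAF

variable {Ω Λ ξ S T U : Type} [Fintype Ω]

open Classical in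
theorem Pr_sum (p : Ω → ℝ) (E : Set Ω) : Pr p E = ∑ ω, if ω ∈ E then p ω else 0 := by
  unfold Pr law
  refine Finset.sum_congr rfl fun ω _ => ?_
  by_cases h : ω ∈ E
  · rw [if_pos h, if_pos (by simpa using h)]
  · rw [if_neg h, if_neg (by simpa using h)]

/-- entropy of an event -/
theorem H_prop {p : Ω → ℝ} (hp : IsLaw p) (E : Ω → Prop) : H p E ≤ Real.log 2 := by
  classical
  have h := H_le_log_card hp.nonneg hp.sum_one E ({True, False} : Finset Prop) (fun ω _ => by
    by_cases h : E ω <;> simp [h])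
  have h2 : (({True, False} : Finset Prop).card : ℝ) = 2 := by
    rw [Finset.card_pair (by simp)]
    norm_num
  rwa [h2] at h

theorem CH_unit {p : Ω → ℝ} (hp : IsLaw p) (X : Ω → S) : CH p X (fun _ => ()) = H p X := by
  have e1 : H p (fun ω => (X ω, ())) = H p X :=
    H_congr hp.nonneg (fun _ _ _ _ h => Prod.ext h rfl) fun _ _ _ _ h => (Prod.ext_iff.mp h).1
  have e2 : H p (fun _ => ()) = 0 := H_const hp.sum_one ()
  unfold CH
  rw [e1, e2, sub_zero]

theorem MI_symm {p : Ω → ℝ} (hp : ∀ ω, 0 ≤ p ω) (X : Ω → S) (Y : Ω → T) (b : Ω → U) :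
    MI p X Y b = MI p Y X b := by
  unfold MI
  have : CH p (fun ω => (X ω, Y ω)) b = CH p (fun ω => (Y ω, X ω)) b := by
    refine CH_congr hp ?_ ?_ (fun _ _ _ _ h => h) (fun _ _ _ _ h => h) <;>
    · intro ω ω' _ _ h
      simp only [Prod.mk.injEq] at h ⊢
      tauto
  rw [this]
  ring

/-- data processing -/
theorem MI_le {p : Ω → ℝ} (hp : ∀ ω, 0 ≤ p ω) (l : Ω → S) (B : Ω → T) (x : Ω → ξ) (b : Ω → U)
    (h : Det p (fun ω => (l ω, b ω)) B) : MI p B x b ≤ MI p l x b := by
  rw [MI_symm hp, MI_symm hp l, MI_eq hp, MI_eq hp]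
  have := CH_mono_cond hp (X := x) (W' := fun ω => (l ω, b ω)) (W := fun ω => (B ω, b ω))
    (fun ω ω' a a' hh => Prod.ext (h ω ω' a a' hh) (Prod.ext_iff.mp hh).2)
  linarith

theorem lab_le {N : ℕ} {p : Ω → ℝ} (hp : IsLaw p) (l : Ω → Λ) (x : Ω → ξ) (B : Ω → Fin N → ℤ)
    (hB : Det p l B) (c : ξ → Fin N → ℝ) (E : Set Ω) {r M : ℝ} (hr : 0 ≤ r)
    (h1 : ∀ ω, 0 < p ω → ω ∉ E → ∀ i, |(B ω i : ℝ) - c (x ω) i| ≤ r)
    (h2 : ∀ ω i, |(B ω i : ℝ)| ≤ M) :
    H p B ≤ MI p l x (fun _ => ()) + Real.log 2 +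
      N * (Real.log (4 * r + 1) + Pr p E * Real.log (4 * M + 1)) := by
  classical
  have hp0 := hp.nonneg
  have e1 : CH p B (fun _ => ()) = H p B := CH_unit hp B
  have e2 : MI p B x (fun _ => ()) ≤ MI p l x (fun _ => ()) :=
    MI_le hp0 l B x _ (fun ω ω' a a' hh => hB ω ω' a a' (Prod.ext_iff.mp hh).1)
  rw [MI_eq hp0 B] at e2
  have e3 := CH_le_add hp0 B (fun ω => ω ∈ E) (fun ω => (x ω, ()))
  have e4 : CH p (fun ω => ω ∈ E) (fun ω => (x ω, ())) ≤ Real.log 2 := by
    refine le_trans ?_ (H_prop hp fun ω => ω ∈ E)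
    rw [← CH_unit hp (fun ω => ω ∈ E)]
    exact CH_mono_cond hp0 (fun _ _ _ _ _ => rfl)
  have e5 := CH_le_vec hp0 hp.sum_one B (fun ω => (ω ∈ E, (x ω, ())))
    (fun ω => if ω ∈ E then 2 * M else 2 * r) (by
      intro ω ω' h h' hh k
      simp only [Prod.mk.injEq] at hh
      push_cast
      split_ifs with hE
      · have := abs_sub (B ω k : ℝ) (B ω' k : ℝ)
        have a1 := h2 ω k
        have a2 := h2 ω' k
        linarith
      · have hE' : ω' ∉ E := fun h => hE (by rw [hh.1]; exact h)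
        have a1 := h1 ω h hE k
        have a2 := h1 ω' h' hE' k
        rw [← hh.2.1] at a2
        rw [abs_le] at a1 a2 ⊢
        constructor <;> linarith)
  have e6 : Ex p (fun ω => Real.log (2 * (if ω ∈ E then 2 * M else 2 * r) + 1)) ≤
      Real.log (4 * r + 1) + Pr p E * Real.log (4 * M + 1) := by
    have h0 : 0 ≤ Real.log (4 * r + 1) := Real.log_nonneg (by linarith)
    have h3 : Ex p (fun ω => Real.log (2 * (if ω ∈ E then 2 * M else 2 * r) + 1)) ≤
        Ex p (fun ω => Real.log (4 * r + 1) + (if ω ∈ E then Real.log (4 * M + 1) else 0)) := by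
      refine Ex_mono hp0 fun ω _ => ?_
      split_ifs with hE
      · rw [show 2 * (2 * M) = 4 * M by ring]
        linarith
      · rw [show 2 * (2 * r) = 4 * r by ring]
        linarith
    rw [Ex_add, Ex_const hp.sum_one] at h3
    refine h3.trans (le_of_eq ?_)
    congr 1
    rw [Pr_sum, Finset.sum_mul]
    unfold Ex
    refine Finset.sum_congr rfl fun ω _ => ?_
    by_cases h : ω ∈ E <;> simp [h]
  have e7 : (N : ℝ) * Ex p (fun ω => Real.log (2 * (if ω ∈ E then 2 * M else 2 * r) + 1)) ≤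
      N * (Real.log (4 * r + 1) + Pr p E * Real.log (4 * M + 1)) :=
    mul_le_mul_of_nonneg_left e6 (Nat.cast_nonneg _)
  linarith

end Pool.M5
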